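import Pool.Agent.Lib.MP_4a6649_lc.Codes
import Mathlib.Tactic.Linarith
import Mathlib.Tactic.ByContra

/-!
# A cone avoidance basis theorem for effectively closed classes
-/

namespace Pool.Agent.Intro

open Pool.Agent.SJT (pre length_pre getElem?_pre pre_zero pre_succ take_pre pre_le pre_congr
  pre_congr_iff)
open Encodable

/-- Dependent choice. -/
theorem dep_choice {α : Type*} {p : α → Prop} {r : ℕ → α → α → Prop} (a0 : α) (h0 : p a0)
    (h : ∀ n a, p a → ∃ b, p b ∧ r n a b) :
    ∃ f : ℕ → α, f 0 = a0 ∧ ∀ n, p (f n) ∧ r n (f n) (f (n + 1)) := by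
  classical
  have h' : ∀ n (a : {a // p a}), ∃ b : {b // p b}, r n a.1 b.1 := fun n a => by
    obtain ⟨b, hb, hr⟩ := h n a.1 a.2
    exact ⟨⟨b, hb⟩, hr⟩
  choose g hg using h'
  let f : ℕ → {a // p a} := fun n => Nat.rec ⟨a0, h0⟩ (fun n a => g n a) n
  exact ⟨fun n => (f n).1, rfl, fun n => ⟨(f n).2, hg n (f n)⟩⟩

/-- `B` is Turing reducible to `Z`. -/
def TLe (B Z : Set ℕ) : Prop := Nat.RecursiveIn {chi Z} (chi B)

theorem TLe.refl (Z : Set ℕ) : TLe Z Z := Nat.RecursiveIn.oracle _ rfl

theorem TLe.trans {B C D : Set ℕ} (h1 : TLe B C) (h2 : TLe C D) : TLe B D :=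
  Nat.RecursiveIn.subst h1 fun g hg => by
    have : g = chi C := hg
    rw [this]; exact h2

open scoped Classical in
theorem TLe.of₂ {B C D Z : Set ℕ} (hB : TLe B Z) (hC : TLe C Z) {f g : ℕ → ℕ}
    (hf : Computable f) (hg : Computable g) {h : ℕ → Bool → Bool → Bool}
    (hh : Computable fun q : ℕ × Bool × Bool => h q.1 q.2.1 q.2.2)
    (H : ∀ n, n ∈ D ↔ h n (decide (f n ∈ B)) (decide (g n ∈ C)) = true) : TLe D Z := by
  have h1 : Nat.RecursiveIn {chi Z} (fun n => chi B (f n)) := SJT.natRec_comp hB hf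
  have h2 : Nat.RecursiveIn {chi Z} (fun n => chi C (g n)) := SJT.natRec_comp hC hg
  have h3 := Nat.RecursiveIn.pair h1 h2
  have hK : Partrec₂ (fun n c : ℕ => Part.some
      (if h n (decide (c.unpair.1 = 1)) (decide (c.unpair.2 = 1)) = true then 1 else 0) :
      ℕ → ℕ →. ℕ) := by
    refine Computable.partrec ?_
    have : Computable fun p : ℕ × ℕ => h p.1 (decide (p.2.unpair.1 = 1))
        (decide (p.2.unpair.2 = 1)) := by
      refine Computable.comp (f := fun q : ℕ × Bool × Bool => h q.1 q.2.1 q.2.2)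
        (g := fun p : ℕ × ℕ => (p.1, decide (p.2.unpair.1 = 1), decide (p.2.unpair.2 = 1)))
        hh ?_
      refine Computable.pair Computable.fst (Computable.pair ?_ ?_)
      · exact ((Primrec.eq.decide).comp (Primrec.fst.comp (Primrec.unpair.comp Primrec.snd))
          (Primrec.const 1)).to_comp
      · exact ((Primrec.eq.decide).comp (Primrec.snd.comp (Primrec.unpair.comp Primrec.snd))
          (Primrec.const 1)).to_comp
    exact (Primrec.dom_bool (fun b : Bool => if b = true then 1 else 0)).to_comp.comp this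
  refine (SJT.natRec_bind h3 hK).of_eq fun n => ?_
  have e1 : chi B (f n) = Part.some (if f n ∈ B then 1 else 0) := rfl
  have e2 : chi C (g n) = Part.some (if g n ∈ C then 1 else 0) := rfl
  have e3 : chi D n = Part.some (if n ∈ D then 1 else 0) := rfl
  have e4 : (Nat.pair <$> chi B (f n) <*> chi C (g n)) =
      Part.some (Nat.pair (if f n ∈ B then 1 else 0) (if g n ∈ C then 1 else 0)) := by
    rw [e1, e2]; simp [Seq.seq]
  rw [e4, e3, Part.bind_some]
  simp only [Nat.unpair_pair]
  congr 1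
  have H' := H n
  by_cases hb : f n ∈ B <;> by_cases hc : g n ∈ C <;> simp [hb, hc] at H' ⊢ <;> simp [H']

/-- The join of two sets. -/
def join (Z P : Set ℕ) : Set ℕ := {n | (n % 2 = 0 ∧ n / 2 ∈ Z) ∨ (n % 2 = 1 ∧ n / 2 ∈ P)}

theorem two_mul_mem_join {Z P : Set ℕ} {x : ℕ} : 2 * x ∈ join Z P ↔ x ∈ Z := by
  have h1 : 2 * x % 2 = 0 := by omega
  have h2 : 2 * x / 2 = x := by omega
  simp [join, h1, h2]

theorem two_mul_add_one_mem_join {Z P : Set ℕ} {x : ℕ} : 2 * x + 1 ∈ join Z P ↔ x ∈ P := by
  have h1 : (2 * x + 1) % 2 = 1 := by omega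
  have h2 : (2 * x + 1) / 2 = x := by omega
  simp [join, h1, h2]

theorem TLe.join_left (Z P : Set ℕ) : TLe Z (join Z P) := by
  classical
  refine TLe.of₂ (TLe.refl (join Z P)) (TLe.refl (join Z P)) (f := fun n => 2 * n)
    (g := fun n => n) (h := fun _ b _ => b) ?_ Computable.id ?_ ?_
  · exact (Primrec.nat_mul.comp (Primrec.const 2) Primrec.id).to_comp
  · exact Computable.fst.comp Computable.snd
  · intro n; simp [two_mul_mem_join]

theorem TLe.join_right (Z P : Set ℕ) : TLe P (join Z P) := by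
  classical
  refine TLe.of₂ (TLe.refl (join Z P)) (TLe.refl (join Z P)) (f := fun n => 2 * n + 1)
    (g := fun n => n) (h := fun _ b _ => b) ?_ Computable.id ?_ ?_
  · exact (Primrec.succ.comp (Primrec.nat_mul.comp (Primrec.const 2) Primrec.id)).to_comp
  · exact Computable.fst.comp Computable.snd
  · intro n; simp [two_mul_add_one_mem_join]

theorem TLe.join {X Y Z : Set ℕ} (hX : TLe X Z) (hY : TLe Y Z) : TLe (join X Y) Z := by
  classical
  refine TLe.of₂ hX hY (f := fun n => n / 2) (g := fun n => n / 2)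
    (h := fun n a b => bif decide (n % 2 = 0) then a else b) ?_ ?_ ?_ ?_
  · exact (Primrec.nat_div.comp Primrec.id (Primrec.const 2)).to_comp
  · exact (Primrec.nat_div.comp Primrec.id (Primrec.const 2)).to_comp
  · refine Computable.cond ?_ ?_ ?_
    · exact ((Primrec.eq.decide).comp (Primrec.nat_mod.comp Primrec.fst (Primrec.const 2))
        (Primrec.const 0)).to_comp
    · exact Computable.fst.comp Computable.snd
    · exact Computable.snd.comp Computable.snd
  · intro n
    rcases Nat.mod_two_eq_zero_or_one n with h | h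
    · simp [Intro.join, h]
    · simp [Intro.join, h]

theorem TLe.diff {X Y Z : Set ℕ} (hX : TLe X Z) (hY : TLe Y Z) : TLe (X \ Y) Z := by
  classical
  refine TLe.of₂ hX hY (f := fun n => n) (g := fun n => n)
    (h := fun n a b => a && !b) Computable.id Computable.id ?_ ?_
  · exact (Primrec.and.comp (Primrec.fst.comp Primrec.snd)
      (Primrec.not.comp (Primrec.snd.comp Primrec.snd))).to_comp
  · intro n; simp

/-- The join of two strings. -/
def joinStr (τ π : List Bool) : List Bool :=
  (List.range (2 * τ.length)).map fun i =>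
    bif decide (i % 2 = 0) then (τ[i / 2]?).getD false else (π[i / 2]?).getD false

theorem joinStr_pre (Z P : Set ℕ) (l : ℕ) :
    joinStr (pre Z l) (pre P l) = pre (join Z P) (2 * l) := by
  classical
  have e : ∀ (X : Set ℕ) i, i < l → ((pre X l)[i]?).getD false = decide (i ∈ X) := by
    intro X i hi
    have : (pre X l)[i]? = some (decide (i ∈ X)) := by rw [getElem?_pre]; simp [hi]
    rw [this]; rfl
  unfold joinStr
  rw [length_pre]
  show _ = (List.range (2 * l)).map fun i => decide (i ∈ join Z P)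
  apply List.map_congr_left
  intro i hi
  rw [List.mem_range] at hi
  have hi' : i / 2 < l := by omega
  rw [e Z _ hi', e P _ hi']
  rcases Nat.mod_two_eq_zero_or_one i with h | h
  · simp [join, h]
  · simp [join, h]

theorem primrec_joinStr : Primrec fun q : List Bool × List Bool => joinStr q.1 q.2 := by
  have h2 : Primrec fun q : (List Bool × List Bool) × ℕ => q.2 / 2 :=
    Primrec.nat_div.comp Primrec.snd (Primrec.const 2)
  refine Primrec.list_map (Primrec.list_range.comp (Primrec.nat_mul.comp (Primrec.const 2)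
    (Primrec.list_length.comp Primrec.fst))) ?_
  refine Primrec.cond ?_ ?_ ?_
  · exact (Primrec.eq.decide).comp (Primrec.nat_mod.comp Primrec.snd (Primrec.const 2))
      (Primrec.const 0)
  · exact Primrec.option_getD.comp (Primrec.list_getElem?.comp
      (Primrec.fst.comp Primrec.fst) h2) (Primrec.const false)
  · exact Primrec.option_getD.comp (Primrec.list_getElem?.comp
      (Primrec.snd.comp Primrec.fst) h2) (Primrec.const false)

/-! ### Semidecidable predicates -/

section SD

variable {α β : Type*} [Primcodable α] [Primcodable β]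

/-- Semidecidable predicates, given by a primitive recursive search. -/
def SD (p : α → Prop) : Prop :=
  ∃ T : α → ℕ → Bool, Primrec₂ T ∧ ∀ a, p a ↔ ∃ s, T a s = true

theorem SD.of_primrec {f : α → Bool} (hf : Primrec f) : SD fun a => f a = true :=
  ⟨fun a _ => f a, hf.comp Primrec.fst, fun _ => ⟨fun h => ⟨0, h⟩, fun ⟨_, h⟩ => h⟩⟩

theorem SD.of_iff {p q : α → Prop} (hp : SD p) (h : ∀ a, q a ↔ p a) : SD q := by
  obtain ⟨T, hT, h'⟩ := hp
  exact ⟨T, hT, fun a => (h a).trans (h' a)⟩

theorem SD.comp {p : β → Prop} (hp : SD p) {g : α → β} (hg : Primrec g) :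
    SD fun a => p (g a) := by
  obtain ⟨T, hT, h⟩ := hp
  exact ⟨fun a s => T (g a) s, hT.comp (hg.comp Primrec.fst) Primrec.snd, fun a => h _⟩

theorem SD.or {p q : α → Prop} (hp : SD p) (hq : SD q) : SD fun a => p a ∨ q a := by
  obtain ⟨T, hT, h⟩ := hp
  obtain ⟨T', hT', h'⟩ := hq
  refine ⟨fun a s => T a s || T' a s, Primrec.or.comp hT hT', fun a => ?_⟩
  show (p a ∨ q a) ↔ ∃ s, (T a s || T' a s) = true
  rw [h, h']
  constructor
  · rintro (⟨s, hs⟩ | ⟨s, hs⟩)
    · exact ⟨s, by simp [hs]⟩
    · exact ⟨s, by simp [hs]⟩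
  · rintro ⟨s, hs⟩
    rw [Bool.or_eq_true] at hs
    rcases hs with hs | hs
    · exact Or.inl ⟨s, hs⟩
    · exact Or.inr ⟨s, hs⟩

theorem SD.and {p q : α → Prop} (hp : SD p) (hq : SD q) : SD fun a => p a ∧ q a := by
  obtain ⟨T, hT, h⟩ := hp
  obtain ⟨T', hT', h'⟩ := hq
  refine ⟨fun a s => T a s.unpair.1 && T' a s.unpair.2, ?_, fun a => ?_⟩
  · exact Primrec.and.comp
      (hT.comp Primrec.fst (Primrec.fst.comp (Primrec.unpair.comp Primrec.snd)))
      (hT'.comp Primrec.fst (Primrec.snd.comp (Primrec.unpair.comp Primrec.snd)))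
  · show (p a ∧ q a) ↔ ∃ s : ℕ, (T a s.unpair.1 && T' a s.unpair.2) = true
    rw [h, h']
    constructor
    · rintro ⟨⟨s, hs⟩, ⟨t, ht⟩⟩
      exact ⟨Nat.pair s t, by simp [hs, ht]⟩
    · rintro ⟨s, hs⟩
      rw [Bool.and_eq_true] at hs
      exact ⟨⟨_, hs.1⟩, ⟨_, hs.2⟩⟩

theorem SD.ex {p : α × β → Prop} (hp : SD p) : SD fun a => ∃ b, p (a, b) := by
  obtain ⟨T, hT, h⟩ := hp
  refine ⟨fun a s => (((decode (α := β) s.unpair.1)).map fun b => T (a, b) s.unpair.2).getD false,
    ?_, fun a => ?_⟩
  · refine Primrec.option_getD.comp (Primrec.option_map ?_ ?_) (Primrec.const false)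
    · exact Primrec.decode.comp (Primrec.fst.comp (Primrec.unpair.comp Primrec.snd))
    · refine hT.comp (Primrec.pair (Primrec.fst.comp Primrec.fst) Primrec.snd)
        (Primrec.snd.comp (Primrec.unpair.comp (Primrec.snd.comp Primrec.fst)))
  · constructor
    · rintro ⟨b, hb⟩
      obtain ⟨s, hs⟩ := (h _).1 hb
      exact ⟨Nat.pair (encode b) s, by simp [hs]⟩
    · rintro ⟨s, hs⟩
      beta_reduce at hs
      cases hd : decode (α := β) s.unpair.1 with
      | none => rw [hd] at hs; simp at hs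
      | some b =>
        rw [hd] at hs
        exact ⟨b, (h _).2 ⟨_, hs⟩⟩

theorem SD.mem {F : α →. ℕ} (hF : Partrec F) : SD fun q : α × ℕ => q.2 ∈ F q.1 := by
  obtain ⟨c, hc⟩ := Nat.Partrec.Code.exists_code.1 hF
  refine ⟨fun q s => decide (Nat.Partrec.Code.evaln s c (encode q.1) = some q.2), ?_,
    fun q => ?_⟩
  · refine (Primrec.eq.decide).comp ?_ (Primrec.option_some.comp (Primrec.snd.comp Primrec.fst))
    exact Nat.Partrec.Code.primrec_evaln.comp (Primrec.pair (Primrec.pair Primrec.snd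
      (Primrec.const c)) (Primrec.encode.comp (Primrec.fst.comp Primrec.fst)))
  · have h1 : q.2 ∈ F q.1 ↔ q.2 ∈ c.eval (encode q.1) := by
      rw [hc]
      simp
    refine h1.trans ?_
    rw [Nat.Partrec.Code.evaln_complete]
    simp

end SD

/-! ### Koenig's lemma -/

theorem koenig {Q : List Bool → Prop} (hQ : ∀ σ τ, σ <+: τ → Q σ → Q τ)
    (h : ∀ P : Set ℕ, ∃ l, Q (pre P l)) : ∃ l, ∀ ρ : List Bool, ρ.length = l → Q ρ := by
  by_contra hcon
  push Not at hcon
  let I : List Bool → Prop := fun σ => ∀ l, σ.length ≤ l → ∃ ρ, σ <+: ρ ∧ ρ.length = l ∧ ¬ Q ρ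
  have h0 : I [] := fun l _ => by
    obtain ⟨ρ, h1, h2⟩ := hcon l
    exact ⟨ρ, List.nil_prefix, h1, h2⟩
  have hs : ∀ (_ : ℕ) σ, I σ → ∃ τ, I τ ∧ ∃ b, τ = σ ++ [b] := by
    intro _ σ hσ
    by_contra hno
    push Not at hno
    have hf : ∀ b, ∃ l, σ.length + 1 ≤ l ∧ ∀ ρ, σ ++ [b] <+: ρ → ρ.length = l → Q ρ := by
      intro b
      by_contra hb
      push Not at hb
      refine hno (σ ++ [b]) ?_ b rfl
      intro l hl
      have hl' : σ.length + 1 ≤ l := by simpa using hl
      obtain ⟨ρ, h1, h2, h3⟩ := hb l hl'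
      exact ⟨ρ, h1, h2, h3⟩
    obtain ⟨l1, hl1, hq1⟩ := hf true
    obtain ⟨l0, hl0, hq0⟩ := hf false
    obtain ⟨ρ, h1, h2, h3⟩ := hσ (max l1 l0) (by omega)
    obtain ⟨t, rfl⟩ := h1
    cases t with
    | nil => simp at h2; omega
    | cons b t =>
      have hpre : σ ++ [b] <+: σ ++ b :: t := ⟨t, by simp⟩
      have hlen : (σ ++ [b]).length = σ.length + 1 := by simp
      cases b with
      | true =>
        apply h3
        refine hQ ((σ ++ true :: t).take l1) _ (List.take_prefix _ _) ?_
        apply hq1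
        · rw [List.prefix_take_iff]
          exact ⟨hpre, by rw [hlen]; exact hl1⟩
        · rw [List.length_take]; omega
      | false =>
        apply h3
        refine hQ ((σ ++ false :: t).take l0) _ (List.take_prefix _ _) ?_
        apply hq0
        · rw [List.prefix_take_iff]
          exact ⟨hpre, by rw [hlen]; exact hl0⟩
        · rw [List.length_take]; omega
  obtain ⟨f, hf0, hf⟩ := dep_choice (r := fun _ σ τ => ∃ b, τ = σ ++ [b]) [] h0 hs
  let P : Set ℕ := {i | (f (i + 1))[i]? = some true}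
  have hlen : ∀ n, (f n).length = n := by
    intro n
    induction n with
    | zero => rw [hf0]; rfl
    | succ n ih =>
      obtain ⟨b, hb⟩ := (hf n).2
      rw [hb, List.length_append, ih]; rfl
  have hpre : ∀ n, pre P n = f n := by
    intro n
    induction n with
    | zero => rw [hf0, pre_zero]
    | succ n ih =>
      obtain ⟨b, hb⟩ := (hf n).2
      rw [pre_succ, ih, hb]
      congr 2
      have : n ∈ P ↔ b = true := by
        show (f (n + 1))[n]? = some true ↔ _
        rw [hb, List.getElem?_append_right (by rw [hlen]), hlen]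
        simp
      simp [this]
  obtain ⟨l, hl⟩ := h P
  rw [hpre] at hl
  obtain ⟨ρ, h1, h2, h3⟩ := (hf l).1 l (by rw [hlen])
  have : f l = ρ := List.IsPrefix.eq_of_length h1 (by rw [h2, hlen])
  exact h3 (this ▸ hl)

/-- All strings of a given length. -/
def allStr (n : ℕ) : List (List Bool) :=
  Nat.rec [[]] (fun _ ih => ih.map (fun ρ => ρ ++ [true]) ++ ih.map (fun ρ => ρ ++ [false])) n

theorem mem_allStr {n : ℕ} {ρ : List Bool} : ρ ∈ allStr n ↔ ρ.length = n := by
  induction n generalizing ρ with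
  | zero =>
    show ρ ∈ [[]] ↔ _
    simp
  | succ n ih =>
    show ρ ∈ (allStr n).map (fun ρ => ρ ++ [true]) ++ (allStr n).map (fun ρ => ρ ++ [false]) ↔ _
    rw [List.mem_append, List.mem_map, List.mem_map]
    constructor
    · rintro (⟨a, ha, rfl⟩ | ⟨a, ha, rfl⟩)
      · rw [List.length_append, ih.1 ha]; rfl
      · rw [List.length_append, ih.1 ha]; rfl
    · intro h
      have hne : ρ ≠ [] := by rintro rfl; simp at h
      obtain ⟨a, b, rfl⟩ : ∃ a b, ρ = a ++ [b] :=
        ⟨ρ.dropLast, ρ.getLast hne, (List.dropLast_append_getLast hne).symm⟩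
      have ha : a.length = n := by simpa using h
      cases b with
      | true => exact Or.inl ⟨a, ih.2 ha, rfl⟩
      | false => exact Or.inr ⟨a, ih.2 ha, rfl⟩

theorem primrec_allStr : Primrec allStr := by
  refine Primrec.nat_rec₁ [[]] ?_
  have h : ∀ b : Bool, Primrec fun q : ℕ × List (List Bool) => q.2.map fun ρ => ρ ++ [b] := by
    intro b
    refine Primrec.list_map Primrec.snd ?_
    exact Primrec.list_append.comp Primrec.snd (Primrec.const [b])
  exact Primrec.list_append.comp (h true) (h false)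

/-! ### Classes -/

/-- The effectively closed class given by `W`, relative to `Z`. -/
def Cls (W : List Bool × List Bool → Prop) (Z : Set ℕ) : Set (Set ℕ) :=
  {P | ∀ l, ¬ W (pre P l, pre Z l)}

/-- Restriction of a class to the extensions of a string. -/
def restr (W : List Bool × List Bool → Prop) (σ : List Bool) : List Bool × List Bool → Prop :=
  fun q => W q ∨ q.1.take σ.length ≠ σ.take q.1.length

theorem primrec_take : Primrec fun q : List Bool × ℕ => q.1.take q.2 := by
  have h : Primrec fun q : List Bool × ℕ =>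
      (List.range q.2).filterMap fun i => q.1[i]? :=
    Primrec.listFilterMap (Primrec.list_range.comp Primrec.snd)
      (Primrec.list_getElem?.comp (Primrec.fst.comp Primrec.fst) Primrec.snd)
  refine h.of_eq fun q => ?_
  obtain ⟨l, n⟩ := q
  show (List.range n).filterMap (fun i => l[i]?) = l.take n
  induction n with
  | zero => simp
  | succ n ih =>
    rw [List.range_succ, List.filterMap_append, ih, List.take_add_one]
    cases hn : l[n]? <;> simp [hn]

theorem SD.restr {W : List Bool × List Bool → Prop} (hW : SD W) (σ : List Bool) :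
    SD (restr W σ) := by
  refine SD.or hW ?_
  have h : Primrec fun q : List Bool × List Bool =>
      !(decide (q.1.take σ.length = σ.take q.1.length)) := by
    refine Primrec.not.comp ((Primrec.eq.decide).comp ?_ ?_)
    · exact primrec_take.comp (Primrec.pair Primrec.fst (Primrec.const _))
    · exact primrec_take.comp (Primrec.pair (Primrec.const σ)
        (Primrec.list_length.comp Primrec.fst))
  exact (SD.of_primrec h).of_iff fun q => by simp

theorem mem_restr {W : List Bool × List Bool → Prop} {σ : List Bool} {Z P : Set ℕ} :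
    P ∈ Cls (restr W σ) Z ↔ P ∈ Cls W Z ∧ pre P σ.length = σ := by
  constructor
  · intro h
    refine ⟨fun l hl => h l (Or.inl hl), ?_⟩
    have := h σ.length
    by_contra hcon
    refine this (Or.inr ?_)
    rw [length_pre, take_pre, min_self, List.take_length]
    exact hcon
  · rintro ⟨h1, h2⟩ l hl
    rcases hl with hl | hl
    · exact h1 l hl
    · apply hl
      rw [length_pre, take_pre]
      have : σ.take l = pre P (min l σ.length) := by
        rw [← take_pre, h2]
      rw [this, min_comm]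

theorem eval_joinStr {c : OCode} {Z P : Set ℕ} {x y : ℕ} :
    (∃ l, y ∈ c.eval (strO (joinStr (pre Z l) (pre P l))) x) ↔
      y ∈ c.eval (chi (join Z P)) x := by
  constructor
  · rintro ⟨l, hl⟩
    rw [joinStr_pre] at hl
    exact c.eval_mono (strO_pre _ _) _ _ hl
  · intro h
    obtain ⟨l, hl⟩ := c.eval_use h
    refine ⟨l, ?_⟩
    rw [joinStr_pre]
    exact c.eval_pre_mono _ (by omega) hl

/-- The bad event used in the proof of the basis theorem. -/
def Vp (W : List Bool × List Bool → Prop) (c : OCode) :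
    (ℕ × ℕ) × (List Bool × List Bool) → Prop :=
  fun q => W q.2 ∨ q.1.2 ∈ c.eval (strO (joinStr q.2.2 q.2.1)) q.1.1

theorem SD.Vp {W : List Bool × List Bool → Prop} (hW : SD W) (c : OCode) : SD (Vp W c) := by
  refine SD.or (hW.comp (g := fun q : (ℕ × ℕ) × (List Bool × List Bool) => q.2) Primrec.snd) ?_
  have h1 : Partrec fun r : ℕ × (List Bool × List Bool) =>
      c.eval (strO (joinStr r.2.2 r.2.1)) r.1 :=
    Partrec.comp (f := fun q : List Bool × ℕ => c.eval (strO q.1) q.2)
      (g := fun r : ℕ × (List Bool × List Bool) => (joinStr r.2.2 r.2.1, r.1)) c.partrec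
      ((primrec_joinStr.comp (Primrec.pair (Primrec.snd.comp Primrec.snd)
        (Primrec.fst.comp Primrec.snd))).to_comp.pair Computable.fst)
  exact (SD.mem h1).comp (g := fun q : (ℕ × ℕ) × (List Bool × List Bool) =>
    ((q.1.1, q.2), q.1.2)) (Primrec.pair (Primrec.pair (Primrec.fst.comp Primrec.fst)
      Primrec.snd) (Primrec.snd.comp Primrec.fst))

/-- The test used for computing `D` from `Z`. -/
def okB (T : (ℕ × ℕ) × (List Bool × List Bool) → ℕ → Bool) (x v : ℕ) (τ : List Bool) : Bool :=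
  (allStr τ.length).all fun ρ => (List.range (τ.length + 1)).any fun l' =>
    (List.range (τ.length + 1)).any fun s => T ((x, v), (ρ.take l', τ.take l')) s

theorem okB_iff {T : (ℕ × ℕ) × (List Bool × List Bool) → ℕ → Bool} {x v : ℕ} {τ : List Bool} :
    okB T x v τ = true ↔ ∀ ρ : List Bool, ρ.length = τ.length → ∃ l' ≤ τ.length,
      ∃ s ≤ τ.length, T ((x, v), (ρ.take l', τ.take l')) s = true := by
  unfold okB
  rw [List.all_eq_true]
  constructor
  · intro h ρ hρ
    have := h ρ (mem_allStr.2 hρ)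
    rw [List.any_eq_true] at this
    obtain ⟨l', hl', h2⟩ := this
    rw [List.any_eq_true] at h2
    obtain ⟨s, hs, h3⟩ := h2
    rw [List.mem_range] at hl' hs
    exact ⟨l', by omega, s, by omega, h3⟩
  · intro h ρ hρ
    obtain ⟨l', hl', s, hs, h3⟩ := h ρ (mem_allStr.1 hρ)
    rw [List.any_eq_true]
    refine ⟨l', List.mem_range.2 (by omega), ?_⟩
    rw [List.any_eq_true]
    exact ⟨s, List.mem_range.2 (by omega), h3⟩

theorem primrec_okB {T : (ℕ × ℕ) × (List Bool × List Bool) → ℕ → Bool} (hT : Primrec₂ T)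
    (v : ℕ) : Primrec fun q : ℕ × List Bool => okB T q.1 v q.2 := by
  refine SJT.primrec_all (f := fun q : ℕ × List Bool => allStr q.2.length)
    (p := fun (q : ℕ × List Bool) (ρ : List Bool) => (List.range (q.2.length + 1)).any fun l' =>
    (List.range (q.2.length + 1)).any fun s => T ((q.1, v), (ρ.take l', q.2.take l')) s)
    (primrec_allStr.comp (Primrec.list_length.comp Primrec.snd)) ?_
  refine SJT.primrec_any (f := fun r : (ℕ × List Bool) × List Bool =>
      List.range (r.1.2.length + 1))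
    (p := fun (r : (ℕ × List Bool) × List Bool) (l' : ℕ) =>
      (List.range (r.1.2.length + 1)).any fun s =>
        T ((r.1.1, v), (r.2.take l', r.1.2.take l')) s)
    (Primrec.list_range.comp (Primrec.succ.comp (Primrec.list_length.comp
      (Primrec.snd.comp Primrec.fst)))) ?_
  refine SJT.primrec_any (f := fun r : ((ℕ × List Bool) × List Bool) × ℕ =>
      List.range (r.1.1.2.length + 1))
    (p := fun (r : ((ℕ × List Bool) × List Bool) × ℕ) (s : ℕ) =>
        T ((r.1.1.1, v), (r.1.2.take r.2, r.1.1.2.take r.2)) s)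
    (Primrec.list_range.comp (Primrec.succ.comp (Primrec.list_length.comp
      (Primrec.snd.comp (Primrec.fst.comp Primrec.fst))))) ?_
  have h1 : Primrec fun r : (((ℕ × List Bool) × List Bool) × ℕ) × ℕ => r.1.1.1.1 :=
    Primrec.fst.comp (Primrec.fst.comp (Primrec.fst.comp Primrec.fst))
  have h2 : Primrec fun r : (((ℕ × List Bool) × List Bool) × ℕ) × ℕ => r.1.1.2.take r.1.2 :=
    Primrec.comp (f := fun q : List Bool × ℕ => q.1.take q.2)
      (g := fun r : (((ℕ × List Bool) × List Bool) × ℕ) × ℕ => (r.1.1.2, r.1.2)) primrec_take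
      (Primrec.pair (Primrec.snd.comp (Primrec.fst.comp Primrec.fst))
        (Primrec.snd.comp Primrec.fst))
  have h3 : Primrec fun r : (((ℕ × List Bool) × List Bool) × ℕ) × ℕ => r.1.1.1.2.take r.1.2 :=
    Primrec.comp (f := fun q : List Bool × ℕ => q.1.take q.2)
      (g := fun r : (((ℕ × List Bool) × List Bool) × ℕ) × ℕ => (r.1.1.1.2, r.1.2)) primrec_take
      (Primrec.pair (Primrec.snd.comp (Primrec.fst.comp (Primrec.fst.comp Primrec.fst)))
        (Primrec.snd.comp Primrec.fst))
  exact Primrec₂.comp (f := T)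
    (g := fun r : (((ℕ × List Bool) × List Bool) × ℕ) × ℕ =>
      ((r.1.1.1.1, v), (r.1.1.2.take r.1.2, r.1.1.1.2.take r.1.2)))
    (h := fun r => r.2) hT (Primrec.pair (Primrec.pair h1 (Primrec.const v))
      (Primrec.pair h2 h3)) Primrec.snd

theorem meet {W : List Bool × List Bool → Prop} (hW : SD W) {Z : Set ℕ}
    (hne : (Cls W Z).Nonempty) {D : Set ℕ} (hD : ¬ TLe D Z) (c : OCode) :
    ∃ W', SD W' ∧ (Cls W' Z).Nonempty ∧ Cls W' Z ⊆ Cls W Z ∧
      ∀ P ∈ Cls W' Z, c.eval (chi (join Z P)) ≠ chi D := by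
  classical
  by_cases ha : ∃ x, ∃ P ∈ Cls W Z, ∀ y, y ∉ c.eval (chi (join Z P)) x
  · obtain ⟨x, P, hP, hx⟩ := ha
    refine ⟨fun q => W q ∨ ∃ y, y ∈ c.eval (strO (joinStr q.2 q.1)) x, ?_, ⟨P, ?_⟩, ?_, ?_⟩
    · have h1 := ((SD.Vp hW c).comp (g := fun r : (List Bool × List Bool) × ℕ =>
        ((x, r.2), r.1)) (Primrec.pair (Primrec.pair (Primrec.const x) Primrec.snd)
          Primrec.fst)).ex
      refine h1.of_iff fun q => ?_
      constructor
      · rintro (h | ⟨y, hy⟩)
        · exact ⟨0, Or.inl h⟩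
        · exact ⟨y, Or.inr hy⟩
      · rintro ⟨y, h | h⟩
        · exact Or.inl h
        · exact Or.inr ⟨y, h⟩
    · rintro l (hl | ⟨y, hy⟩)
      · exact hP l hl
      · exact hx y (eval_joinStr.1 ⟨l, hy⟩)
    · intro Q hQ l hl
      exact hQ l (Or.inl hl)
    · intro Q hQ he
      have : (if x ∈ D then 1 else 0) ∈ chi D x := Part.mem_some _
      rw [← he] at this
      obtain ⟨l, hl⟩ := eval_joinStr.2 this
      exact hQ l (Or.inr ⟨_, hl⟩)
  push Not at ha
  by_cases hb : ∃ x v, v ∉ chi D x ∧ ∃ P ∈ Cls W Z, v ∈ c.eval (chi (join Z P)) x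
  · obtain ⟨x, v, hv, P, hP, hx⟩ := hb
    obtain ⟨l, hl⟩ := eval_joinStr.2 hx
    have hlen : (pre P l).length = l := length_pre P l
    refine ⟨restr W (pre P l), hW.restr _, ⟨P, mem_restr.2 ⟨hP, by rw [hlen]⟩⟩, ?_, ?_⟩
    · intro Q hQ; exact (mem_restr.1 hQ).1
    · intro Q hQ he
      have hQ2 := (mem_restr.1 hQ).2
      rw [hlen] at hQ2
      apply hv
      rw [← he]
      refine eval_joinStr.1 ⟨l, ?_⟩
      rw [hQ2]; exact hl
  push Not at hb
  exfalso
  apply hD
  obtain ⟨T, hT, hTW⟩ := SD.Vp hW c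
  let G : ℕ → List Bool → Option ℕ := fun x τ =>
    bif okB T x 1 τ then some 1 else bif okB T x 0 τ then some 0 else none
  have hG : Computable₂ G := by
    have h : Primrec fun q : ℕ × List Bool => G q.1 q.2 :=
      Primrec.cond (primrec_okB hT 1) (Primrec.const (some 1))
        (Primrec.cond (primrec_okB hT 0) (Primrec.const (some 0)) (Primrec.const none))
    exact h.to_comp
  have h1 := SJT.natRec_search hG Z
  have hval : ∀ x l v, okB T x v (pre Z l) = true → v ∈ chi D x := by
    intro x l v h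
    obtain ⟨P, hP⟩ := hne
    rw [okB_iff, length_pre] at h
    obtain ⟨l', hl', s, hs, h3⟩ := h (pre P l) (length_pre _ _)
    have h4 := (hTW _).2 ⟨s, h3⟩
    rw [take_pre, take_pre, min_eq_left hl'] at h4
    rcases h4 with h4 | h4
    · exact absurd h4 (hP l')
    · by_contra hv
      exact hb x v hv P hP (eval_joinStr.1 ⟨l', h4⟩)
  have hex : ∀ x, ∀ v ∈ chi D x, ∃ l, okB T x v (pre Z l) = true := by
    intro x v hv
    have hkoe := koenig
      (Q := fun ρ => ∃ l' ≤ ρ.length, ∃ s ≤ ρ.length,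
        T ((x, v), (ρ.take l', pre Z l')) s = true) (by
      rintro σ τ hστ ⟨l', hl', s, hs, h3⟩
      have hle := hστ.length_le
      refine ⟨l', by omega, s, by omega, ?_⟩
      obtain ⟨t, rfl⟩ := hστ
      rw [List.take_append_of_le_length hl']
      exact h3) (by
      intro P
      have : ∃ l, Vp W c ((x, v), (pre P l, pre Z l)) := by
        by_cases hP : P ∈ Cls W Z
        · obtain ⟨y, hy⟩ := ha x P hP
          have hyv : y = v := by
            by_contra hne'
            refine hb x y (fun hcon => hne' ?_) P hP hy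
            exact Part.mem_unique hcon hv
          subst hyv
          obtain ⟨l, hl⟩ := eval_joinStr.2 hy
          exact ⟨l, Or.inr hl⟩
        · have : ∃ l, W (pre P l, pre Z l) := by
            by_contra hcon
            push Not at hcon
            exact hP hcon
          obtain ⟨l, hl⟩ := this
          exact ⟨l, Or.inl hl⟩
      obtain ⟨l, hl⟩ := this
      obtain ⟨s, hs⟩ := (hTW _).1 hl
      refine ⟨max l s, l, ?_, s, ?_, ?_⟩
      · rw [length_pre]; exact le_max_left _ _
      · rw [length_pre]; exact le_max_right _ _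
      · rw [take_pre, min_eq_left (le_max_left _ _)]
        exact hs)
    obtain ⟨l, hl⟩ := hkoe
    refine ⟨l, okB_iff.2 fun ρ hρ => ?_⟩
    rw [length_pre] at hρ ⊢
    obtain ⟨l', hl', s, hs, h3⟩ := hl ρ hρ
    rw [hρ] at hl' hs
    refine ⟨l', hl', s, hs, ?_⟩
    rw [take_pre, min_eq_left hl']
    exact h3
  refine h1.of_eq fun x => ?_
  have hGv : ∀ l v, G x (pre Z l) = some v → v ∈ chi D x := by
    intro l v h
    simp only [G] at h
    cases h1 : okB T x 1 (pre Z l) with
    | true =>
      rw [h1] at h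
      simp only [cond_true, Option.some.injEq] at h
      subst h
      exact hval x l 1 h1
    | false =>
      rw [h1] at h
      cases h0 : okB T x 0 (pre Z l) with
      | true =>
        rw [h0] at h
        simp only [cond_true, cond_false, Option.some.injEq] at h
        subst h
        exact hval x l 0 h0
      | false => rw [h0] at h; simp at h
  have hdom : (Nat.rfindOpt fun l => G x (pre Z l)).Dom := by
    rw [Nat.rfindOpt_dom]
    have hx : (if x ∈ D then 1 else 0) ∈ chi D x := Part.mem_some _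
    obtain ⟨l, hl⟩ := hex x _ hx
    by_cases hxD : x ∈ D
    · simp only [hxD, if_true] at hl
      exact ⟨l, 1, by simp [G, hl]⟩
    · simp only [hxD, if_false] at hl
      cases h1 : okB T x 1 (pre Z l) with
      | true => exact ⟨l, 1, by simp [G, h1]⟩
      | false => exact ⟨l, 0, by simp [G, h1, hl]⟩
  obtain ⟨v, hv⟩ := Part.dom_iff_mem.1 hdom
  obtain ⟨l, hl⟩ := Nat.rfindOpt_spec hv
  rw [Part.eq_some_iff.2 hv]
  exact (Part.eq_some_iff.2 (hGv l v hl)).symm

/-- The cone avoidance basis theorem. -/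
theorem basis {W : List Bool × List Bool → Prop} (hW : SD W) {Z : Set ℕ}
    (hne : (Cls W Z).Nonempty) {ι : Type*} [Countable ι] (D : ι → Set ℕ)
    (hD : ∀ i, ¬ TLe (D i) Z) : ∃ P ∈ Cls W Z, ∀ i, ¬ TLe (D i) (join Z P) := by
  classical
  obtain ⟨e, he⟩ : ∃ e : ℕ → Option (ι × OCode), Function.Surjective e :=
    exists_surjective_nat (Option (ι × OCode))
  obtain ⟨f, hf0, hf⟩ := dep_choice
    (p := fun W => SD W ∧ (Cls W Z).Nonempty)
    (r := fun n W W' => Cls W' Z ⊆ Cls W Z ∧ (∃ σ : List Bool, σ.length = n ∧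
      ∀ P ∈ Cls W' Z, pre P n = σ) ∧ ∀ q, e n = some q → ∀ P ∈ Cls W' Z,
        q.2.eval (chi (join Z P)) ≠ chi (D q.1)) W ⟨hW, hne⟩ (by
    rintro n W ⟨hW, P, hP⟩
    have hlen : (pre P n).length = n := length_pre P n
    have hP' : P ∈ Cls (restr W (pre P n)) Z := mem_restr.2 ⟨hP, by rw [hlen]⟩
    have hσ : ∀ Q ∈ Cls (restr W (pre P n)) Z, Q ∈ Cls W Z ∧ pre Q n = pre P n := by
      intro Q hQ
      have := mem_restr.1 hQ
      rw [hlen] at this
      exact this
    cases hen : e n with
    | none =>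
      exact ⟨_, ⟨hW.restr _, P, hP'⟩, fun Q hQ => (hσ Q hQ).1,
        ⟨pre P n, hlen, fun Q hQ => (hσ Q hQ).2⟩, fun q hq => by simp at hq⟩
    | some q =>
      obtain ⟨W', h1, h2, h3, h4⟩ := meet (hW.restr (pre P n)) ⟨P, hP'⟩ (hD q.1) q.2
      exact ⟨W', ⟨h1, h2⟩, fun Q hQ => (hσ Q (h3 hQ)).1,
        ⟨pre P n, hlen, fun Q hQ => (hσ Q (h3 hQ)).2⟩, fun q' hq' => by
          rw [Option.some.injEq] at hq'
          subst hq'
          exact h4⟩)
  have hmono : ∀ n m, n ≤ m → Cls (f m) Z ⊆ Cls (f n) Z := by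
    intro n m h
    induction h with
    | refl => exact subset_rfl
    | step _ ih => exact subset_trans (hf _).2.1 ih
  let P : Set ℕ := {x | ∃ n, ∀ Q ∈ Cls (f n) Z, x ∈ Q}
  have hP : ∀ n, ∀ Q ∈ Cls (f (n + 1)) Z, pre P n = pre Q n := by
    intro n Q hQ
    obtain ⟨-, ⟨σ, hσ, hσ'⟩, -⟩ := (hf n).2
    rw [hσ' Q hQ]
    have hQσ := hσ' Q hQ
    rw [← hQσ]
    apply pre_congr
    intro i hi
    constructor
    · rintro ⟨m, hm⟩
      obtain ⟨-, R, hR⟩ := (hf (max m (n + 1))).1
      have h1 := hm R (hmono _ _ (le_max_left _ _) hR)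
      have h2 := hσ' R (hmono _ _ (le_max_right _ _) hR)
      have h3 : pre R n = pre Q n := by rw [h2, hQσ]
      exact (pre_congr_iff.1 h3 i hi).1 h1
    · intro hiQ
      refine ⟨n + 1, fun R hR => ?_⟩
      have h3 : pre R n = pre Q n := by rw [hσ' R hR, hQσ]
      exact (pre_congr_iff.1 h3 i hi).2 hiQ
  have hPm : ∀ n, P ∈ Cls (f n) Z := by
    intro n l hl
    obtain ⟨-, R, hR⟩ := (hf (max n (l + 1))).1
    have h1 := hP l R (hmono _ _ (le_max_right _ _) hR)
    rw [h1] at hl
    exact hmono _ _ (le_max_left _ _) hR l hl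
  refine ⟨P, hf0 ▸ hPm 0, fun i hi => ?_⟩
  obtain ⟨c, hc⟩ := exists_ocode hi
  obtain ⟨n, hn⟩ := he (some (i, c))
  exact (hf n).2.2.2 (i, c) hn P (hPm (n + 1)) hc

end Pool.Agent.Intro
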