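import Pool.Agent.Lib.MP_4a6649_lc.Defs
import Pool.Agent.Lib.MP_377195_lc.Search
import Pool.Agent.Lib.MP_377195_lc.PrimAux
import Mathlib.Data.Countable.Basic

/-!
# Oracle programs: monotonicity, finite use, and the relation with relative computability
-/

namespace Pool.Agent.Intro

open Pool.Agent.SJT (pre length_pre getElem?_pre pre_zero pre_succ take_pre pre_le pre_congr
  pre_congr_iff)

theorem chi_eq (X : Set ℕ) : SJT.chi X = chi X := rfl

/-- A finite string used as a (finite) oracle. -/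
def strO (σ : List Bool) : ℕ →. ℕ := fun n =>
  ((σ[n]?).map (fun b => if b = true then 1 else 0) : Option ℕ)

theorem mem_strO {σ : List Bool} {n y : ℕ} :
    y ∈ strO σ n ↔ ∃ b, σ[n]? = some b ∧ (if b = true then 1 else 0) = y := by
  show y ∈ ((((σ[n]?).map (fun b => if b = true then 1 else 0) : Option ℕ)) : Part ℕ) ↔ _
  rw [Part.mem_ofOption, Option.mem_def, Option.map_eq_some_iff]

theorem mem_chi {X : Set ℕ} {n y : ℕ} :
    y ∈ chi X n ↔ (n ∈ X ∧ y = 1) ∨ (n ∉ X ∧ y = 0) := by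
  classical
  show y ∈ Part.some (if n ∈ X then 1 else 0) ↔ _
  rw [Part.mem_some_iff]
  by_cases h : n ∈ X <;> simp [h]

theorem one_mem_chi {X : Set ℕ} {n : ℕ} : 1 ∈ chi X n ↔ n ∈ X := by
  rw [mem_chi]; simp

theorem zero_mem_chi {X : Set ℕ} {n : ℕ} : 0 ∈ chi X n ↔ n ∉ X := by
  rw [mem_chi]; simp

theorem chi_inj {X Y : Set ℕ} (h : chi X = chi Y) : X = Y := by
  ext n
  rw [← one_mem_chi, ← one_mem_chi, h]

/-- `g'` extends `g`. -/
def Sub (g g' : ℕ →. ℕ) : Prop := ∀ n y, y ∈ g n → y ∈ g' n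

theorem Sub.trans {g g' g'' : ℕ →. ℕ} (h : Sub g g') (h' : Sub g' g'') : Sub g g'' :=
  fun n y hy => h' n y (h n y hy)

theorem strO_mono {σ τ : List Bool} (h : σ <+: τ) : Sub (strO σ) (strO τ) := by
  intro n y hy
  rw [mem_strO] at hy ⊢
  obtain ⟨b, hb, hy⟩ := hy
  refine ⟨b, ?_, hy⟩
  obtain ⟨t, rfl⟩ := h
  have hn : n < σ.length := by
    by_contra hcon
    rw [List.getElem?_eq_none (not_lt.1 hcon)] at hb
    cases hb
  rw [List.getElem?_append_left hn]
  exact hb

theorem strO_pre (X : Set ℕ) (l : ℕ) : Sub (strO (pre X l)) (chi X) := by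
  intro n y hy
  rw [mem_strO] at hy
  obtain ⟨b, hb, hy⟩ := hy
  rw [getElem?_pre] at hb
  rw [mem_chi, ← hy]
  by_cases hn : n ∈ X
  · have : b = true := hb.2.2 hn
    simp [this, hn]
  · have : ¬ b = true := fun h => hn (hb.2.1 h)
    simp [this, hn]

theorem mem_rfind_aux (q : ℕ →. ℕ) (y : ℕ) :
    y ∈ (Nat.rfind fun n => (q n).map fun k => decide (k = 0)) ↔
      ((∃ a ∈ q y, decide (a = 0) = true) ∧ ∀ k < y, ∃ b ∈ q k, decide (b = 0) = false) := by
  refine Nat.mem_rfind.trans (and_congr (Part.mem_map_iff _) ?_)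
  constructor
  · intro h k hk; exact (Part.mem_map_iff _).1 (h hk)
  · intro h k hk; exact (Part.mem_map_iff _).2 (h k hk)

theorem OCode.eval_mono {g g' : ℕ →. ℕ} (h : Sub g g') (c : OCode) :
    Sub (c.eval g) (c.eval g') := by
  induction c with
  | zero => intro n y hy; exact hy
  | succ => intro n y hy; exact hy
  | left => intro n y hy; exact hy
  | right => intro n y hy; exact hy
  | oracle => exact h
  | pair a b iha ihb =>
    intro n y hy
    obtain ⟨u, hu, hy⟩ := Part.mem_bind_iff.1 hy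
    obtain ⟨v, hv, hy⟩ := Part.mem_bind_iff.1 hy
    exact Part.mem_bind_iff.2 ⟨u, iha _ _ hu, Part.mem_bind_iff.2 ⟨v, ihb _ _ hv, hy⟩⟩
  | comp a b iha ihb =>
    intro n y hy
    obtain ⟨u, hu, hy⟩ := Part.mem_bind_iff.1 hy
    exact Part.mem_bind_iff.2 ⟨u, ihb _ _ hu, iha _ _ hy⟩
  | prec a b iha ihb =>
    intro p y hy
    have key : ∀ (m k y : ℕ), y ∈ (Nat.rec (a.eval g k)
        (fun y IH => IH.bind fun i => b.eval g (Nat.pair k (Nat.pair y i))) m : Part ℕ) →
        y ∈ (Nat.rec (a.eval g' k)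
        (fun y IH => IH.bind fun i => b.eval g' (Nat.pair k (Nat.pair y i))) m : Part ℕ) := by
      intro m k
      induction m with
      | zero => intro y hy; exact iha _ _ hy
      | succ m ih =>
        intro y hy
        obtain ⟨u, hu, hy⟩ := Part.mem_bind_iff.1 hy
        exact Part.mem_bind_iff.2 ⟨u, ih _ hu, ihb _ _ hy⟩
    exact key _ _ _ hy
  | rfind a iha =>
    intro n y hy
    obtain ⟨⟨u, hu, hu'⟩, hk⟩ := (mem_rfind_aux _ _).1 hy
    refine (mem_rfind_aux _ _).2 ⟨⟨u, iha _ _ hu, hu'⟩, fun k hk' => ?_⟩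
    obtain ⟨v, hv, hv'⟩ := hk k hk'
    exact ⟨v, iha _ _ hv, hv'⟩

theorem OCode.eval_pre_mono (c : OCode) (X : Set ℕ) {k l n y : ℕ} (h : k ≤ l)
    (hy : y ∈ c.eval (strO (pre X k)) n) : y ∈ c.eval (strO (pre X l)) n :=
  c.eval_mono (strO_mono (pre_le X h)) _ _ hy

theorem OCode.eval_use (c : OCode) {X : Set ℕ} : ∀ {n y : ℕ}, y ∈ c.eval (chi X) n →
    ∃ l, y ∈ c.eval (strO (pre X l)) n := by
  induction c with
  | zero => intro n y hy; exact ⟨0, hy⟩
  | succ => intro n y hy; exact ⟨0, hy⟩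
  | left => intro n y hy; exact ⟨0, hy⟩
  | right => intro n y hy; exact ⟨0, hy⟩
  | oracle =>
    intro n y hy
    classical
    have hy : y ∈ chi X n := hy
    refine ⟨n + 1, mem_strO.2 ⟨decide (n ∈ X), ?_, ?_⟩⟩
    · rw [getElem?_pre]; simp
    · rw [mem_chi] at hy
      rcases hy with ⟨h1, rfl⟩ | ⟨h1, rfl⟩ <;> simp [h1]
  | pair a b iha ihb =>
    intro n y hy
    obtain ⟨u, hu, hy⟩ := Part.mem_bind_iff.1 hy
    obtain ⟨v, hv, hy⟩ := Part.mem_bind_iff.1 hy
    obtain ⟨l1, h1⟩ := iha hu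
    obtain ⟨l2, h2⟩ := ihb hv
    exact ⟨max l1 l2, Part.mem_bind_iff.2 ⟨u, a.eval_pre_mono X (le_max_left _ _) h1,
      Part.mem_bind_iff.2 ⟨v, b.eval_pre_mono X (le_max_right _ _) h2, hy⟩⟩⟩
  | comp a b iha ihb =>
    intro n y hy
    obtain ⟨u, hu, hy⟩ := Part.mem_bind_iff.1 hy
    obtain ⟨l1, h1⟩ := iha hy
    obtain ⟨l2, h2⟩ := ihb hu
    exact ⟨max l1 l2, Part.mem_bind_iff.2 ⟨u, b.eval_pre_mono X (le_max_right _ _) h2,
      a.eval_pre_mono X (le_max_left _ _) h1⟩⟩
  | prec a b iha ihb =>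
    intro p y hy
    have key : ∀ (m k y : ℕ), y ∈ (Nat.rec (a.eval (chi X) k)
        (fun y IH => IH.bind fun i => b.eval (chi X) (Nat.pair k (Nat.pair y i))) m : Part ℕ) →
        ∃ l, y ∈ (Nat.rec (a.eval (strO (pre X l)) k)
        (fun y IH => IH.bind fun i => b.eval (strO (pre X l)) (Nat.pair k (Nat.pair y i))) m :
          Part ℕ) := by
      intro m k
      induction m with
      | zero => intro y hy; exact iha hy
      | succ m ih =>
        intro y hy
        obtain ⟨u, hu, hy⟩ := Part.mem_bind_iff.1 hy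
        obtain ⟨l1, h1⟩ := ih _ hu
        obtain ⟨l2, h2⟩ := ihb hy
        refine ⟨max l1 l2, Part.mem_bind_iff.2 ⟨u, ?_,
          b.eval_pre_mono X (le_max_right _ _) h2⟩⟩
        have h3 := (OCode.prec a b).eval_mono (strO_mono (pre_le X (le_max_left l1 l2)))
          (Nat.pair k m) u
        simp only [OCode.eval, Nat.unpair_pair] at h3
        exact h3 h1
    exact key _ _ _ hy
  | rfind a iha =>
    intro n y hy
    obtain ⟨⟨u, hu, hu'⟩, hk⟩ := (mem_rfind_aux _ _).1 hy
    obtain ⟨l0, h0⟩ := iha hu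
    have : ∃ l, ∀ k < y, ∃ b, b ∈ a.eval (strO (pre X l)) (Nat.pair n k) ∧
        decide (b = 0) = false := by
      have aux : ∀ j, j ≤ y → ∃ l, ∀ k < j, ∃ b, b ∈ a.eval (strO (pre X l)) (Nat.pair n k) ∧
          decide (b = 0) = false := by
        intro j
        induction j with
        | zero => intro _; exact ⟨0, fun k hk => absurd hk (Nat.not_lt_zero _)⟩
        | succ j ihj =>
          intro hj
          obtain ⟨l, hl⟩ := ihj (Nat.le_of_succ_le hj)
          obtain ⟨b, hb, hb'⟩ := hk _ (Nat.lt_of_succ_le hj)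
          obtain ⟨l', hl'⟩ := iha hb
          refine ⟨max l l', fun k hk => ?_⟩
          rcases Nat.lt_succ_iff_lt_or_eq.1 hk with hk | hk
          · obtain ⟨b', hb1, hb2⟩ := hl k hk
            exact ⟨b', a.eval_pre_mono X (le_max_left _ _) hb1, hb2⟩
          · subst hk
            exact ⟨b, a.eval_pre_mono X (le_max_right _ _) hl', hb'⟩
      exact aux y le_rfl
    obtain ⟨l, hl⟩ := this
    refine ⟨max l0 l, (mem_rfind_aux _ _).2
      ⟨⟨u, a.eval_pre_mono X (le_max_left _ _) h0, hu'⟩, fun k hk => ?_⟩⟩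
    obtain ⟨b', hb1, hb2⟩ := hl k hk
    exact ⟨b', a.eval_pre_mono X (le_max_right _ _) hb1, hb2⟩

theorem OCode.mem_eval_iff (c : OCode) {X : Set ℕ} {n y : ℕ} : y ∈ c.eval (chi X) n ↔
    ∃ l, y ∈ c.eval (strO (pre X l)) n :=
  ⟨c.eval_use, fun ⟨l, hl⟩ => c.eval_mono (strO_pre X l) _ _ hl⟩

theorem OCode.recursiveIn (g : ℕ →. ℕ) (c : OCode) : Nat.RecursiveIn {g} (c.eval g) := by
  induction c with
  | zero => exact Nat.RecursiveIn.zero
  | succ => exact Nat.RecursiveIn.succ
  | left => exact Nat.RecursiveIn.left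
  | right => exact Nat.RecursiveIn.right
  | oracle => exact Nat.RecursiveIn.oracle g rfl
  | pair a b iha ihb =>
    refine (Nat.RecursiveIn.pair iha ihb).of_eq fun n => ?_
    apply Part.ext
    intro y
    constructor
    · intro h
      simp only [Seq.seq, Part.map_eq_map] at h
      obtain ⟨F, hF, h⟩ := Part.mem_bind_iff.1 h
      obtain ⟨u, hu, rfl⟩ := (Part.mem_map_iff _).1 hF
      obtain ⟨v, hv, rfl⟩ := (Part.mem_map_iff _).1 h
      exact Part.mem_bind_iff.2 ⟨u, hu, Part.mem_bind_iff.2 ⟨v, hv, Part.mem_some _⟩⟩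
    · intro h
      obtain ⟨u, hu, h⟩ := Part.mem_bind_iff.1 h
      obtain ⟨v, hv, h⟩ := Part.mem_bind_iff.1 h
      simp only [Seq.seq, Part.map_eq_map]
      rw [Part.mem_some_iff] at h
      subst h
      exact Part.mem_bind_iff.2 ⟨Nat.pair u, (Part.mem_map_iff _).2 ⟨u, hu, rfl⟩,
        (Part.mem_map_iff _).2 ⟨v, hv, rfl⟩⟩
  | comp a b iha ihb => exact Nat.RecursiveIn.comp iha ihb
  | prec a b iha ihb => exact Nat.RecursiveIn.prec iha ihb
  | rfind a iha => exact Nat.RecursiveIn.rfind iha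

theorem exists_ocode {g f : ℕ →. ℕ} (hf : Nat.RecursiveIn {g} f) :
    ∃ c : OCode, c.eval g = f := by
  induction hf with
  | zero => exact ⟨.zero, rfl⟩
  | succ => exact ⟨.succ, rfl⟩
  | left => exact ⟨.left, rfl⟩
  | right => exact ⟨.right, rfl⟩
  | oracle h hh =>
    have : h = g := hh
    subst this
    exact ⟨.oracle, rfl⟩
  | pair _ _ ih1 ih2 =>
    obtain ⟨a, rfl⟩ := ih1
    obtain ⟨b, rfl⟩ := ih2
    refine ⟨.pair a b, ?_⟩
    funext n
    apply Part.ext
    intro y
    constructor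
    · intro h
      obtain ⟨u, hu, h⟩ := Part.mem_bind_iff.1 h
      obtain ⟨v, hv, h⟩ := Part.mem_bind_iff.1 h
      simp only [Seq.seq, Part.map_eq_map]
      rw [Part.mem_some_iff] at h
      subst h
      exact Part.mem_bind_iff.2 ⟨Nat.pair u, (Part.mem_map_iff _).2 ⟨u, hu, rfl⟩,
        (Part.mem_map_iff _).2 ⟨v, hv, rfl⟩⟩
    · intro h
      simp only [Seq.seq, Part.map_eq_map] at h
      obtain ⟨F, hF, h⟩ := Part.mem_bind_iff.1 h
      obtain ⟨u, hu, rfl⟩ := (Part.mem_map_iff _).1 hF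
      obtain ⟨v, hv, rfl⟩ := (Part.mem_map_iff _).1 h
      exact Part.mem_bind_iff.2 ⟨u, hu, Part.mem_bind_iff.2 ⟨v, hv, Part.mem_some _⟩⟩
  | comp _ _ ih1 ih2 =>
    obtain ⟨a, rfl⟩ := ih1
    obtain ⟨b, rfl⟩ := ih2
    exact ⟨.comp a b, rfl⟩
  | prec _ _ ih1 ih2 =>
    obtain ⟨a, rfl⟩ := ih1
    obtain ⟨b, rfl⟩ := ih2
    exact ⟨.prec a b, rfl⟩
  | rfind _ ih =>
    obtain ⟨a, rfl⟩ := ih
    exact ⟨.rfind a, rfl⟩

/-- Relative computability means computability by an oracle program. -/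
theorem recursiveIn_iff_ocode {g f : ℕ →. ℕ} :
    Nat.RecursiveIn {g} f ↔ ∃ c : OCode, c.eval g = f :=
  ⟨exists_ocode, fun ⟨c, hc⟩ => hc ▸ c.recursiveIn g⟩

/-- The computations of an oracle program on finite oracles are effective. -/
theorem OCode.partrec (c : OCode) :
    Partrec fun q : List Bool × ℕ => c.eval (strO q.1) q.2 := by
  induction c with
  | zero => exact (Computable.const 0).partrec
  | succ => exact (Computable.succ.comp Computable.snd).partrec
  | left => exact (Computable.fst.comp (Computable.unpair.comp Computable.snd)).partrec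
  | right => exact (Computable.snd.comp (Computable.unpair.comp Computable.snd)).partrec
  | oracle => exact SJT.partrec₂_oracle
  | pair a b iha ihb =>
    refine Partrec.bind iha (Partrec.bind (ihb.comp (Computable.fst (α := List Bool × ℕ))) ?_)
    exact (Primrec₂.natPair.to_comp.comp (Computable.snd.comp Computable.fst)
      Computable.snd).partrec
  | comp a b iha ihb =>
    exact Partrec.bind ihb (iha.comp ((Computable.fst.comp Computable.fst).pair Computable.snd))
  | prec a b iha ihb =>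
    refine Partrec.nat_rec (f := fun p : List Bool × ℕ => p.2.unpair.2)
      (g := fun p : List Bool × ℕ => a.eval (strO p.1) p.2.unpair.1)
      (h := fun (p : List Bool × ℕ) (q : ℕ × ℕ) =>
        b.eval (strO p.1) (Nat.pair p.2.unpair.1 (Nat.pair q.1 q.2))) ?_ ?_ ?_
    · exact Computable.snd.comp (Computable.unpair.comp Computable.snd)
    · exact iha.comp (Computable.fst.pair
        (Computable.fst.comp (Computable.unpair.comp Computable.snd)))
    · have h1 : Computable fun q : (List Bool × ℕ) × (ℕ × ℕ) =>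
          (q.1.1, Nat.pair q.1.2.unpair.1 (Nat.pair q.2.1 q.2.2)) := by
        refine (Computable.fst.comp Computable.fst).pair ?_
        refine Primrec₂.natPair.to_comp.comp ?_ ?_
        · exact Computable.fst.comp (Computable.unpair.comp
            (Computable.snd.comp Computable.fst))
        · exact Primrec₂.natPair.to_comp.comp (Computable.fst.comp Computable.snd)
            (Computable.snd.comp Computable.snd)
      exact Partrec.comp (f := fun q : List Bool × ℕ => b.eval (strO q.1) q.2)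
        (g := fun q : (List Bool × ℕ) × (ℕ × ℕ) =>
          (q.1.1, Nat.pair q.1.2.unpair.1 (Nat.pair q.2.1 q.2.2))) ihb h1
  | rfind a iha =>
    refine Partrec.rfind (p := fun (q : List Bool × ℕ) (n : ℕ) =>
      (a.eval (strO q.1) (Nat.pair q.2 n)).map fun k => decide (k = 0)) ?_
    have h1 : Computable fun q : (List Bool × ℕ) × ℕ => (q.1.1, Nat.pair q.1.2 q.2) :=
      (Computable.fst.comp Computable.fst).pair
        (Primrec₂.natPair.to_comp.comp (Computable.snd.comp Computable.fst) Computable.snd)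
    have h2 : Partrec fun q : (List Bool × ℕ) × ℕ =>
        a.eval (strO q.1.1) (Nat.pair q.1.2 q.2) :=
      Partrec.comp (f := fun q : List Bool × ℕ => a.eval (strO q.1) q.2)
        (g := fun q : (List Bool × ℕ) × ℕ => (q.1.1, Nat.pair q.1.2 q.2)) iha h1
    exact Partrec.map h2 ((Primrec.eq.decide).comp Primrec.snd (Primrec.const 0)).to_comp

/-- A coding of oracle programs by natural numbers. -/
def OCode.num : OCode → ℕ
  | .zero => Nat.pair 0 0
  | .succ => Nat.pair 1 0
  | .left => Nat.pair 2 0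
  | .right => Nat.pair 3 0
  | .oracle => Nat.pair 4 0
  | .pair a b => Nat.pair 5 (Nat.pair a.num b.num)
  | .comp a b => Nat.pair 6 (Nat.pair a.num b.num)
  | .prec a b => Nat.pair 7 (Nat.pair a.num b.num)
  | .rfind a => Nat.pair 8 a.num

theorem OCode.num_injective : Function.Injective OCode.num := by
  intro a
  induction a with
  | zero => intro b h; cases b <;> simp [OCode.num, Nat.pair_eq_pair] at h ⊢
  | succ => intro b h; cases b <;> simp [OCode.num, Nat.pair_eq_pair] at h ⊢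
  | left => intro b h; cases b <;> simp [OCode.num, Nat.pair_eq_pair] at h ⊢
  | right => intro b h; cases b <;> simp [OCode.num, Nat.pair_eq_pair] at h ⊢
  | oracle => intro b h; cases b <;> simp [OCode.num, Nat.pair_eq_pair] at h ⊢
  | pair a1 a2 ih1 ih2 =>
    intro b h
    cases b <;> simp [OCode.num, Nat.pair_eq_pair] at h ⊢
    exact ⟨ih1 h.1, ih2 h.2⟩
  | comp a1 a2 ih1 ih2 =>
    intro b h
    cases b <;> simp [OCode.num, Nat.pair_eq_pair] at h ⊢
    exact ⟨ih1 h.1, ih2 h.2⟩
  | prec a1 a2 ih1 ih2 =>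
    intro b h
    cases b <;> simp [OCode.num, Nat.pair_eq_pair] at h ⊢
    exact ⟨ih1 h.1, ih2 h.2⟩
  | rfind a1 ih1 =>
    intro b h
    cases b <;> simp [OCode.num, Nat.pair_eq_pair] at h ⊢
    exact ih1 h

instance : Countable OCode := OCode.num_injective.countable

end Pool.Agent.Intro
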