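import Mathlib.Computability.RecursiveIn
import Mathlib.Data.Set.Finite.Basic

/-!
# Introreducible and uniformly introreducible sets: the definitions
-/

namespace Pool.Agent.Intro

open scoped Classical in
/-- The characteristic function of a set `X` of natural numbers, used as an oracle. -/
noncomputable def chi (X : Set ℕ) : ℕ →. ℕ := fun n => Part.some (if n ∈ X then 1 else 0)

/-- Codes of oracle programs, i.e. of Turing operators. They follow the inductive definition of
`Nat.RecursiveIn`. -/
inductive OCode : Type
  | zero : OCode
  | succ : OCode
  | left : OCode
  | right : OCode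
  | oracle : OCode
  | pair : OCode → OCode → OCode
  | comp : OCode → OCode → OCode
  | prec : OCode → OCode → OCode
  | rfind : OCode → OCode

/-- The function computed by the program `c` with the oracle `g`. -/
def OCode.eval (g : ℕ →. ℕ) : OCode → ℕ →. ℕ
  | .zero => fun _ => Part.some 0
  | .succ => fun n => Part.some (n + 1)
  | .left => fun n => Part.some n.unpair.1
  | .right => fun n => Part.some n.unpair.2
  | .oracle => g
  | .pair a b => fun n => (a.eval g n).bind fun x => (b.eval g n).bind fun y =>
      Part.some (Nat.pair x y)
  | .comp a b => fun n => (b.eval g n).bind fun x => a.eval g x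
  | .prec a b => fun p => Nat.rec (a.eval g p.unpair.1)
      (fun y IH => IH.bind fun i => b.eval g (Nat.pair p.unpair.1 (Nat.pair y i))) p.unpair.2
  | .rfind a => fun n => Nat.rfind fun m => (a.eval g (Nat.pair n m)).map fun x => decide (x = 0)

/-- An infinite set is introreducible if it is Turing reducible to each of its infinite subsets. -/
def Introreducible (A : Set ℕ) : Prop :=
  A.Infinite ∧ ∀ C : Set ℕ, C ⊆ A → C.Infinite → RecursiveIn {chi C} (chi A)

/-- An infinite set is uniformly introreducible if one Turing operator computes it from each of
its infinite subsets. -/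
def UniformlyIntroreducible (A : Set ℕ) : Prop :=
  A.Infinite ∧ ∃ c : OCode, ∀ C : Set ℕ, C ⊆ A → C.Infinite → c.eval (chi C) = chi A

end Pool.Agent.Intro
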