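import Pool.Agent.Lib.MP_4a6649_lc.Basis
import Mathlib.Data.Set.Finite.Lattice
import Mathlib.Data.Finset.Card
import Mathlib.Order.Interval.Set.Infinite
import Mathlib.Order.Interval.Finset.Nat

/-!
# Reduction to uniformly introreducible sets computable from `A`
-/

namespace Pool.Agent.Intro

open Pool.Agent.SJT (pre length_pre getElem?_pre pre_zero pre_succ take_pre pre_le pre_congr
  pre_congr_iff)
open Encodable

section

variable {α : Type*} [Primcodable α] {ι : Type*}

theorem SD.finset_ex {p : ι → α → Prop} (hp : ∀ i, SD (p i)) (J : Finset ι) :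
    SD fun a => ∃ j ∈ J, p j a := by
  classical
  induction J using Finset.induction_on with
  | empty =>
    have : SD fun _ : α => false = true := SD.of_primrec (f := fun _ : α => false)
      (Primrec.const false)
    exact this.of_iff fun a => by simp
  | insert j J _ ih => exact ((hp j).or ih).of_iff fun a => by simp

theorem SD.finset_all {p : ι → α → Prop} (hp : ∀ i, SD (p i)) (J : Finset ι) :
    SD fun a => ∀ j ∈ J, p j a := by
  classical
  induction J using Finset.induction_on with
  | empty =>
    have : SD fun _ : α => true = true := SD.of_primrec (f := fun _ : α => true)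
      (Primrec.const true)
    exact this.of_iff fun a => by simp
  | insert j J _ ih => exact ((hp j).and ih).of_iff fun a => by simp

end

/-- The first kind of bad event. -/
def badA (b k : ℕ) : (List Bool × List Bool) × ℕ → Prop := fun q =>
  decide ((b ≤ q.2 ∧ q.1.2[2 * q.2]? = some true) ∧ q.1.1[Nat.pair k q.2]? = some false) = true

theorem sd_badA (b k : ℕ) : SD (badA b k) := by
  refine SD.of_primrec ?_
  refine (PrimrecPred.and (PrimrecPred.and ?_ ?_) ?_).decide
  · exact Primrec.nat_le.comp (Primrec.const b) Primrec.snd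
  · exact Primrec.eq.comp (Primrec.list_getElem?.comp (Primrec.snd.comp Primrec.fst)
      (Primrec.nat_mul.comp (Primrec.const 2) Primrec.snd)) (Primrec.const (some true))
  · exact Primrec.eq.comp (Primrec.list_getElem?.comp (Primrec.fst.comp Primrec.fst)
      (Primrec₂.natPair.comp (Primrec.const k) Primrec.snd)) (Primrec.const (some false))

/-- The set of positions of a string carrying the bit `true`. -/
def S (σ : List Bool) : Set ℕ := {i | σ[i]? = some true}

/-- The string `ρ` is a subset of the `k`-th column of `π`. -/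
def colB (k : ℕ) (π ρ : List Bool) : Bool :=
  (List.range ρ.length).all fun y =>
    !(decide (ρ[y]? = some true)) || decide (π[Nat.pair k y]? = some true)

theorem colB_iff {k : ℕ} {π ρ : List Bool} :
    colB k π ρ = true ↔ ∀ y ∈ S ρ, Nat.pair k y ∈ S π := by
  unfold colB
  rw [List.all_eq_true]
  constructor
  · intro h y hy
    have hy' : ρ[y]? = some true := hy
    have hlt : y < ρ.length := by
      by_contra hcon
      rw [List.getElem?_eq_none (not_lt.1 hcon)] at hy'
      cases hy'
    have := h y (List.mem_range.2 hlt)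
    show π[Nat.pair k y]? = some true
    simpa [hy'] using this
  · intro h y _
    by_cases hy : ρ[y]? = some true
    · have : π[Nat.pair k y]? = some true := h y hy
      simp [this]
    · simp [hy]

theorem primrec_colB (k : ℕ) : Primrec fun q : List Bool × List Bool => colB k q.1 q.2 := by
  refine SJT.primrec_all (f := fun q : List Bool × List Bool => List.range q.2.length)
    (p := fun (q : List Bool × List Bool) (y : ℕ) =>
      !(decide (q.2[y]? = some true)) || decide (q.1[Nat.pair k y]? = some true))
    (Primrec.list_range.comp (Primrec.list_length.comp Primrec.snd)) ?_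
  refine Primrec.or.comp (Primrec.not.comp ((Primrec.eq.decide).comp ?_
    (Primrec.const (some true)))) ((Primrec.eq.decide).comp ?_ (Primrec.const (some true)))
  · exact Primrec.list_getElem?.comp (Primrec.snd.comp Primrec.fst) Primrec.snd
  · exact Primrec.list_getElem?.comp (Primrec.fst.comp Primrec.fst)
      (Primrec₂.natPair.comp (Primrec.const k) Primrec.snd)

/-- The bit of `π` at `(k, x)` differs from `v`. -/
def disB (k : ℕ) (π : List Bool) (x v : ℕ) : Bool :=
  (decide (π[Nat.pair k x]? = some true) && !(decide (v = 1))) ||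
    (decide (π[Nat.pair k x]? = some false) && !(decide (v = 0)))

theorem disB_iff {k x v : ℕ} {P : Set ℕ} {l : ℕ} :
    disB k (pre P l) x v = true ↔ Nat.pair k x < l ∧
      v ∉ chi {x | Nat.pair k x ∈ P} x := by
  classical
  unfold disB
  rw [mem_chi]
  simp only [Bool.or_eq_true, Bool.and_eq_true, decide_eq_true_eq, getElem?_pre,
    Bool.not_eq_true', decide_eq_false_iff_not, Set.mem_ofPred_eq]
  by_cases h : Nat.pair k x ∈ P <;> simp [h]

theorem primrec_disB (k : ℕ) : Primrec fun q : List Bool × ℕ × ℕ => disB k q.1 q.2.1 q.2.2 := by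
  have h1 : Primrec fun q : List Bool × ℕ × ℕ => q.1[Nat.pair k q.2.1]? :=
    Primrec.list_getElem?.comp Primrec.fst
      (Primrec₂.natPair.comp (Primrec.const k) (Primrec.fst.comp Primrec.snd))
  have h2 : Primrec fun q : List Bool × ℕ × ℕ => q.2.2 := Primrec.snd.comp Primrec.snd
  exact Primrec.or.comp
    (Primrec.and.comp ((Primrec.eq.decide).comp h1 (Primrec.const (some true)))
      (Primrec.not.comp ((Primrec.eq.decide).comp h2 (Primrec.const 1))))
    (Primrec.and.comp ((Primrec.eq.decide).comp h1 (Primrec.const (some false)))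
      (Primrec.not.comp ((Primrec.eq.decide).comp h2 (Primrec.const 0))))

/-- The second kind of bad event. -/
def badB (c : OCode) (k : ℕ) : (List Bool × List Bool) → Prop := fun q =>
  ∃ r : List Bool × ℕ × ℕ, (colB (2 * k) q.1 r.1 = true ∧
    disB (2 * k + 1) q.1 r.2.1 r.2.2 = true) ∧ r.2.2 ∈ c.eval (strO r.1) r.2.1

theorem sd_badB (c : OCode) (k : ℕ) : SD (badB c k) := by
  have h1 : SD fun q : (List Bool × List Bool) × (List Bool × ℕ × ℕ) =>
      (colB (2 * k) q.1.1 q.2.1 && disB (2 * k + 1) q.1.1 q.2.2.1 q.2.2.2) = true := by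
    refine SD.of_primrec (Primrec.and.comp ?_ ?_)
    · exact Primrec.comp (f := fun q : List Bool × List Bool => colB (2 * k) q.1 q.2)
        (g := fun q : (List Bool × List Bool) × (List Bool × ℕ × ℕ) => (q.1.1, q.2.1))
        (primrec_colB _) (Primrec.pair (Primrec.fst.comp Primrec.fst)
          (Primrec.fst.comp Primrec.snd))
    · exact Primrec.comp (f := fun q : List Bool × ℕ × ℕ => disB (2 * k + 1) q.1 q.2.1 q.2.2)
        (g := fun q : (List Bool × List Bool) × (List Bool × ℕ × ℕ) => (q.1.1, q.2.2))
        (primrec_disB _) (Primrec.pair (Primrec.fst.comp Primrec.fst)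
          (Primrec.snd.comp Primrec.snd))
  have h2 : SD fun q : (List Bool × List Bool) × (List Bool × ℕ × ℕ) =>
      q.2.2.2 ∈ c.eval (strO q.2.1) q.2.2.1 := by
    have h := SD.mem c.partrec
    exact h.comp (g := fun q : (List Bool × List Bool) × (List Bool × ℕ × ℕ) =>
      ((q.2.1, q.2.2.1), q.2.2.2)) (Primrec.pair (Primrec.pair (Primrec.fst.comp Primrec.snd)
        (Primrec.fst.comp (Primrec.snd.comp Primrec.snd)))
        (Primrec.snd.comp (Primrec.snd.comp Primrec.snd)))
  refine (SD.ex (h1.and h2)).of_iff fun q => ?_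
  unfold badB
  constructor
  · rintro ⟨r, ⟨h3, h4⟩, h5⟩
    exact ⟨r, by simp [h3, h4], h5⟩
  · rintro ⟨r, h3, h5⟩
    rw [Bool.and_eq_true] at h3
    exact ⟨r, h3, h5⟩

theorem mem_S_pre {X : Set ℕ} {l y : ℕ} : y ∈ S (pre X l) ↔ y < l ∧ y ∈ X := by
  show (pre X l)[y]? = some true ↔ _
  rw [getElem?_pre]; simp

theorem exists_bound_of_finite {X : Set ℕ} (h : X.Finite) : ∃ b, ∀ x ∈ X, x < b := by
  obtain ⟨b, hb⟩ := h.bddAbove
  exact ⟨b + 1, fun x hx => Nat.lt_succ_of_le (hb hx)⟩

theorem dju {ι : Type*} (e : ι → ℕ) (he : Function.Injective e) {Φ : ι → OCode}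
    {B : ι → Set ℕ} (n : ℕ) : ∀ (J : Finset ι), J.card = n →
    (∀ j ∈ J, (B j).Infinite) →
    (∀ j ∈ J, ∀ C ⊆ B j, C.Infinite → (Φ j).eval (chi C) = chi (B j)) →
    ∀ Z X : Set ℕ, TLe X Z → X.Infinite → (∃ b, ∀ x ∈ X, b ≤ x → ∃ j ∈ J, x ∈ B j) →
    (∀ j ∈ J, ¬ TLe (B j) Z) → False := by
  classical
  induction n with
  | zero =>
    intro J hJ _ _ Z X _ hX hb _
    obtain ⟨b, hb⟩ := hb
    rw [Finset.card_eq_zero] at hJ
    subst hJ
    obtain ⟨x, hx, hbx⟩ := hX.exists_gt b
    obtain ⟨j, hj, -⟩ := hb x hx hbx.le
    simp at hj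
  | succ n ih =>
    intro J hJ hinf hΦ Z X hXZ hX hb hBZ
    obtain ⟨b, hb⟩ := hb
    have hZ1 : TLe (join X Z) Z := TLe.join hXZ (TLe.refl Z)
    have hB1 : ∀ j : {j // j ∈ J}, ¬ TLe (B j.1) (join X Z) := fun j h =>
      hBZ j.1 j.2 (h.trans hZ1)
    let W : List Bool × List Bool → Prop := fun q =>
      (∃ x, ((b ≤ x ∧ q.2[2 * x]? = some true) ∧
        ∀ j ∈ J, badA b (2 * e j) (q, x))) ∨ ∃ j ∈ J, badB (Φ j) (e j) q
    have hW : SD W := by
      refine SD.or ?_ (SD.finset_ex (fun j => sd_badB (Φ j) (e j)) J)
      have h1 := SD.finset_all (fun j => sd_badA b (2 * e j)) J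
      have h2 : SD fun q : (List Bool × List Bool) × ℕ =>
          decide (b ≤ q.2 ∧ q.1.2[2 * q.2]? = some true) = true := by
        refine SD.of_primrec ((PrimrecPred.and ?_ ?_).decide)
        · exact Primrec.nat_le.comp (Primrec.const b) Primrec.snd
        · exact Primrec.eq.comp (Primrec.list_getElem?.comp (Primrec.snd.comp Primrec.fst)
            (Primrec.nat_mul.comp (Primrec.const 2) Primrec.snd)) (Primrec.const (some true))
      refine (SD.ex (h2.and h1)).of_iff fun q => ?_
      simp only [decide_eq_true_eq]
    have hne : (Cls W (join X Z)).Nonempty := by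
      let P0 : Set ℕ := {n | ∃ j ∈ J, n.unpair.1 / 2 = e j ∧ n.unpair.2 ∈ B j}
      have hP0 : ∀ j ∈ J, ∀ x, Nat.pair (2 * e j) x ∈ P0 ↔ x ∈ B j := by
        intro j hj x
        constructor
        · rintro ⟨i, hi, h1, h2⟩
          rw [Nat.unpair_pair] at h1 h2
          have : e j = e i := by
            have : 2 * e j / 2 = e j := by omega
            rw [← this]; exact h1
          rw [he this]; exact h2
        · intro hx
          refine ⟨j, hj, ?_, ?_⟩
          · rw [Nat.unpair_pair]
            show 2 * e j / 2 = e j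
            omega
          · rw [Nat.unpair_pair]; exact hx
      have hP1 : ∀ j ∈ J, {x | Nat.pair (2 * e j + 1) x ∈ P0} = B j := by
        intro j hj
        ext x
        constructor
        · rintro ⟨i, hi, h1, h2⟩
          rw [Nat.unpair_pair] at h1 h2
          have : e j = e i := by
            have : (2 * e j + 1) / 2 = e j := by omega
            rw [← this]; exact h1
          rw [he this]; exact h2
        · intro hx
          refine ⟨j, hj, ?_, ?_⟩
          · rw [Nat.unpair_pair]
            show (2 * e j + 1) / 2 = e j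
            omega
          · rw [Nat.unpair_pair]; exact hx
      refine ⟨P0, ?_⟩
      rintro l (⟨x, ⟨hbx, hx⟩, hall⟩ | ⟨j, hj, r, ⟨h1, h2⟩, h3⟩)
      · have hx' : 2 * x ∈ join X Z := by
          rw [getElem?_pre] at hx
          exact hx.2.1 rfl
        rw [two_mul_mem_join] at hx'
        obtain ⟨j, hj, hxj⟩ := hb x hx' hbx
        have h4 := hall j hj
        simp only [badA, decide_eq_true_eq] at h4
        have h5 := h4.2
        rw [getElem?_pre] at h5
        have := h5.2.2 ((hP0 j hj x).2 hxj)
        cases this
      · rw [disB_iff, hP1 j hj] at h2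
        apply h2.2
        rw [colB_iff] at h1
        -- the infinite set `C` extending `r.1`
        let C : Set ℕ := S r.1 ∪ {y ∈ B j | r.1.length ≤ y}
        have hCB : C ⊆ B j := by
          rintro y (hy | hy)
          · have := h1 y hy
            rw [mem_S_pre] at this
            exact (hP0 j hj y).1 this.2
          · exact hy.1
        have hCinf : C.Infinite := by
          refine Set.Infinite.mono Set.subset_union_right ?_
          intro hfin
          obtain ⟨b', hb'⟩ := exists_bound_of_finite hfin
          obtain ⟨y, hy, hy'⟩ := (hinf j hj).exists_gt (max b' r.1.length)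
          have := hb' y ⟨hy, (le_max_right _ _).trans hy'.le⟩
          have := le_max_left b' r.1.length
          omega
        have hpre : pre C r.1.length = r.1 := by
          apply List.ext_getElem?
          intro i
          by_cases hi : i < r.1.length
          · rw [List.getElem?_eq_getElem hi]
            rw [getElem?_pre]
            refine ⟨hi, ?_⟩
            constructor
            · intro h
              refine Or.inl ?_
              show r.1[i]? = some true
              rw [List.getElem?_eq_getElem hi, h]
            · rintro (h | h)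
              · have : r.1[i]? = some true := h
                rw [List.getElem?_eq_getElem hi, Option.some.injEq] at this
                exact this
              · exact absurd h.2 (not_le.2 hi)
          · rw [List.getElem?_eq_none (not_lt.1 hi), List.getElem?_eq_none]
            rw [length_pre]; exact not_lt.1 hi
        rw [← hΦ j hj C hCB hCinf]
        refine (Φ j).eval_mono (strO_pre C r.1.length) _ _ ?_
        rw [hpre]; exact h3
    obtain ⟨P, hP, hPB⟩ := basis hW hne (fun j : {j // j ∈ J} => B j.1) hB1
    let Z' := join (join X Z) P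
    have hXZ' : TLe X Z' := (TLe.join_left X Z).trans (TLe.join_left _ _)
    have hPZ' : TLe P Z' := TLe.join_right _ _
    let Y : ι → Set ℕ := fun j => {x | Nat.pair (2 * e j) x ∈ P}
    have hfin : ∀ j ∈ J, (Y j ∩ B j).Finite := by
      intro j hj
      by_contra hcon
      apply hPB ⟨j, hj⟩
      have hC : ∀ x, chi (B j) x = chi {x | Nat.pair (2 * e j + 1) x ∈ P} x := by
        intro x
        have h1 := hΦ j hj (Y j ∩ B j) Set.inter_subset_right hcon
        have hv : (if x ∈ B j then 1 else 0) ∈ chi (B j) x := Part.mem_some _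
        have hv' := hv
        rw [← h1] at hv'
        obtain ⟨l, hl⟩ := (Φ j).eval_use hv'
        -- a long prefix of `P`
        obtain ⟨L, hL⟩ : ∃ L, (∀ y < l, Nat.pair (2 * e j) y < L) ∧
            Nat.pair (2 * e j + 1) x < L := by
          refine ⟨(((Finset.range l).sup fun y => Nat.pair (2 * e j) y) ⊔
            Nat.pair (2 * e j + 1) x) + 1, ?_, ?_⟩
          · intro y hy
            have h5 : Nat.pair (2 * e j) y ≤
                (Finset.range l).sup fun y => Nat.pair (2 * e j) y :=
              Finset.le_sup (f := fun y => Nat.pair (2 * e j) y) (Finset.mem_range.2 hy)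
            exact Nat.lt_succ_of_le (h5.trans (le_max_left _ _))
          · exact Nat.lt_succ_of_le (le_max_right _ _)
        have hnW := hP L
        have hnB : ¬ badB (Φ j) (e j) (pre P L, pre (join X Z) L) := fun h =>
          hnW (Or.inr ⟨j, hj, h⟩)
        have h2 : (if x ∈ B j then 1 else 0) ∈
            chi {x | Nat.pair (2 * e j + 1) x ∈ P} x := by
          by_contra hno
          apply hnB
          refine ⟨(pre (Y j ∩ B j) l, x, if x ∈ B j then 1 else 0), ⟨?_, ?_⟩, hl⟩
          · rw [colB_iff]
            intro y hy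
            rw [mem_S_pre] at hy ⊢
            exact ⟨hL.1 y hy.1, hy.2.1⟩
          · rw [disB_iff]
            exact ⟨hL.2, hno⟩
        rw [Part.eq_some_iff.2 hv, Part.eq_some_iff.2 h2]
      have hBeq : B j = {x | Nat.pair (2 * e j + 1) x ∈ P} := chi_inj (funext hC)
      refine TLe.of₂ hPZ' hPZ' (f := fun n => Nat.pair (2 * e j + 1) n) (g := fun n => n)
        (h := fun _ b _ => b) ?_ Computable.id ?_ ?_
      · exact (Primrec₂.natPair.comp (Primrec.const _) Primrec.id).to_comp
      · exact Computable.fst.comp Computable.snd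
      · intro n
        show n ∈ B j ↔ _
        rw [hBeq]
        simp
    have hcov : ∀ x ∈ X, b ≤ x → ∃ j ∈ J, x ∈ Y j := by
      intro x hx hbx
      by_contra hcon
      push Not at hcon
      let L := 2 * x + 1 + (J.sup fun j => Nat.pair (2 * e j) x) + 1
      apply hP L
      refine Or.inl ⟨x, ⟨hbx, ?_⟩, ?_⟩
      · rw [getElem?_pre]
        refine ⟨?_, ?_⟩
        · show 2 * x < L
          omega
        · simp [two_mul_mem_join, hx]
      · intro j hj
        simp only [badA, decide_eq_true_eq]
        refine ⟨⟨hbx, ?_⟩, ?_⟩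
        · rw [getElem?_pre]
          refine ⟨?_, ?_⟩
          · show 2 * x < L
            omega
          · simp [two_mul_mem_join, hx]
        · rw [getElem?_pre]
          have h5 : Nat.pair (2 * e j) x ≤ J.sup fun j => Nat.pair (2 * e j) x :=
            Finset.le_sup (f := fun j => Nat.pair (2 * e j) x) hj
          refine ⟨?_, ?_⟩
          · show Nat.pair (2 * e j) x < L
            omega
          · constructor
            · intro h; cases h
            · intro h; exact absurd h (hcon j hj)
    obtain ⟨j, hj, hYinf⟩ : ∃ j ∈ J, (X ∩ Y j).Infinite := by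
      by_contra hcon
      push Not at hcon
      apply hX
      have h1 : X ⊆ {x | x < b} ∪ ⋃ j ∈ J, (X ∩ Y j) := by
        intro x hx
        by_cases hbx : b ≤ x
        · obtain ⟨j, hj, hxj⟩ := hcov x hx hbx
          refine Or.inr ?_
          simp only [Set.mem_iUnion]
          exact ⟨j, hj, hx, hxj⟩
        · exact Or.inl (not_le.1 hbx)
      refine Set.Finite.subset (Set.Finite.union (Set.finite_lt_nat b) ?_) h1
      refine Set.Finite.biUnion J.finite_toSet fun j hj => ?_
      exact hcon j hj
    refine ih (J.erase j) ?_ (fun i hi => hinf i (Finset.mem_of_mem_erase hi))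
      (fun i hi => hΦ i (Finset.mem_of_mem_erase hi)) Z' (X ∩ Y j) ?_ hYinf ?_ ?_
    · rw [Finset.card_erase_of_mem hj, hJ]; rfl
    · refine TLe.of₂ hXZ' hPZ' (f := fun n => n) (g := fun n => Nat.pair (2 * e j) n)
        (h := fun _ a b => a && b) Computable.id ?_ ?_ ?_
      · exact (Primrec₂.natPair.comp (Primrec.const _) Primrec.id).to_comp
      · exact (Primrec.and.comp (Primrec.fst.comp Primrec.snd)
          (Primrec.snd.comp Primrec.snd)).to_comp
      · intro n
        simp only [Bool.and_eq_true, decide_eq_true_eq]
        exact Iff.rfl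
    · obtain ⟨b', hb'⟩ := exists_bound_of_finite (hfin j hj)
      refine ⟨max b b', fun x hx hbx => ?_⟩
      obtain ⟨i, hi, hxi⟩ := hb x hx.1 ((le_max_left _ _).trans hbx)
      refine ⟨i, Finset.mem_erase.2 ⟨?_, hi⟩, hxi⟩
      rintro rfl
      have := hb' x ⟨hx.2, hxi⟩
      have := (le_max_right b b').trans hbx
      omega
    · intro i hi h
      exact hPB ⟨i, Finset.mem_of_mem_erase hi⟩ h

end Pool.Agent.Intro
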