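import Pool.Agent.Lib.MP_4a6649_lc.Legit
import Mathlib.Data.List.OfFn
import Mathlib.Data.Fintype.Card
import Mathlib.Data.Fintype.Prod
import Mathlib.Data.Fintype.Pigeonhole

/-!
# The forcing construction
-/

namespace Pool.Agent.Intro

open Pool.Agent.SJT (pre length_pre getElem?_pre pre_zero pre_succ take_pre pre_le pre_congr
  pre_congr_iff)

/-! ### Strings -/

theorem lt_of_mem_S {σ : List Bool} {i : ℕ} (h : i ∈ S σ) : i < σ.length := by
  by_contra hcon
  have h' : σ[i]? = some true := h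
  rw [List.getElem?_eq_none (not_lt.1 hcon)] at h'
  cases h'

theorem mem_S_iff_of_prefix {σ τ : List Bool} (h : σ <+: τ) {i : ℕ} (hi : i < σ.length) :
    i ∈ S τ ↔ i ∈ S σ := by
  obtain ⟨t, rfl⟩ := h
  show (σ ++ t)[i]? = some true ↔ σ[i]? = some true
  rw [List.getElem?_append_left hi]

theorem S_mono {σ τ : List Bool} (h : σ <+: τ) {i : ℕ} (hi : i ∈ S σ) : i ∈ S τ :=
  (mem_S_iff_of_prefix h (lt_of_mem_S hi)).2 hi

theorem pre_eq_iff {A : Set ℕ} {σ : List Bool} :
    pre A σ.length = σ ↔ ∀ i < σ.length, (i ∈ A ↔ i ∈ S σ) := by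
  constructor
  · intro h i hi
    have : i ∈ S (pre A σ.length) ↔ i ∈ S σ := by rw [h]
    rw [← this, mem_S_pre]
    simp [hi]
  · intro h
    apply List.ext_getElem?
    intro i
    by_cases hi : i < σ.length
    · rw [List.getElem?_eq_getElem hi, getElem?_pre]
      refine ⟨hi, ?_⟩
      rw [h i hi]
      show _ ↔ σ[i]? = some true
      rw [List.getElem?_eq_getElem hi]
      simp
    · rw [List.getElem?_eq_none (not_lt.1 hi), List.getElem?_eq_none]
      rw [length_pre]; exact not_lt.1 hi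

theorem prefix_pre {A : Set ℕ} {σ : List Bool} (h : pre A σ.length = σ) {l : ℕ}
    (hl : σ.length ≤ l) : σ <+: pre A l := by
  have := pre_le A hl
  rwa [h] at this

theorem pre_of_prefix {A : Set ℕ} {σ τ : List Bool} (h : pre A τ.length = τ) (hστ : σ <+: τ) :
    pre A σ.length = σ := by
  rw [pre_eq_iff] at h ⊢
  intro i hi
  rw [h i (hi.trans_le hστ.length_le)]
  exact mem_S_iff_of_prefix hστ hi

theorem leg_pre {A : Set ℕ} (h : Leg A) (l : ℕ) : Leg (S (pre A l)) := by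
  apply Leg.of_local
  intro y hy
  rw [mem_S_pre] at hy
  refine ⟨A, h, hy.2, fun i hi => ?_⟩
  rw [mem_S_pre]
  simp [hi.trans hy.1]

/-- Padding by zeros. -/
def pad (σ : List Bool) (n : ℕ) : List Bool := σ ++ List.replicate n false

theorem S_pad (σ : List Bool) (n : ℕ) : S (pad σ n) = S σ := by
  ext i
  show (σ ++ List.replicate n false)[i]? = some true ↔ σ[i]? = some true
  by_cases hi : i < σ.length
  · rw [List.getElem?_append_left hi]
  · rw [List.getElem?_append_right (not_lt.1 hi), List.getElem?_eq_none (not_lt.1 hi),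
      List.getElem?_replicate]
    split_ifs <;> simp

theorem prefix_pad (σ : List Bool) (n : ℕ) : σ <+: pad σ n := List.prefix_append _ _

theorem length_pad (σ : List Bool) (n : ℕ) : (pad σ n).length = σ.length + n := by
  simp [pad]

/-- Adding the element `y`. -/
def addS (σ : List Bool) (y : ℕ) : List Bool := pad σ (y - σ.length) ++ [true]

theorem mem_S_addS {σ : List Bool} {y i : ℕ} (hy : σ.length ≤ y) :
    i ∈ S (addS σ y) ↔ i ∈ S σ ∨ i = y := by
  have hlen : (pad σ (y - σ.length)).length = y := by rw [length_pad]; omega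
  by_cases hi : i < y
  · have h1 : i ∈ S (addS σ y) ↔ i ∈ S (pad σ (y - σ.length)) :=
      mem_S_iff_of_prefix (List.prefix_append _ _) (by rw [hlen]; exact hi)
    rw [h1, S_pad]
    have : i ≠ y := by omega
    simp [this]
  · have h1 : i ∉ S σ := fun h => hi ((lt_of_mem_S h).trans_le hy)
    show (pad σ (y - σ.length) ++ [true])[i]? = some true ↔ _
    rw [List.getElem?_append_right (by rw [hlen]; omega), hlen]
    by_cases hiy : i = y
    · subst hiy; simp
    · have : i - y ≠ 0 := by omega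
      obtain ⟨n, hn⟩ := Nat.exists_eq_succ_of_ne_zero this
      rw [hn]
      simp [h1, hiy]

theorem prefix_addS (σ : List Bool) (y : ℕ) : σ <+: addS σ y :=
  (prefix_pad _ _).trans (List.prefix_append _ _)

theorem leg_addS {σ : List Bool} (h : Leg (S σ)) {k : ℕ} {L : List (List ℕ)} {p : ℕ}
    (hp : σ.length ≤ p) (hL : L.length ≤ k) (h1 : lst (S σ) σ.length ∈ L)
    (h2 : ∀ ℓ ∈ L, ∀ i < k, (i ∈ ℓ ↔ i ∈ S σ)) : Leg (S (addS σ (enc k L p))) := by
  have hy : σ.length ≤ enc k L p := hp.trans (le_enc k L p)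
  intro y hyS
  rw [mem_S_addS hy] at hyS
  rcases hyS with hyS | rfl
  · obtain ⟨h3, h4, h5⟩ := h y hyS
    have hyl := lt_of_mem_S hyS
    have hloc : ∀ i < y + 1, (i ∈ S (addS σ (enc k L p)) ↔ i ∈ S σ) := fun i hi =>
      mem_S_iff_of_prefix (prefix_addS _ _) (by omega)
    refine ⟨h3, ?_, fun ℓ hℓ i hi => ?_⟩
    · rw [lst_congr (fun i hi => hloc i (by omega))]; exact h4
    · rw [hloc i (by have := kk_le y; omega)]
      exact h5 ℓ hℓ i hi
  · rw [LL_enc, kk_enc]
    refine ⟨hL, ?_, fun ℓ hℓ i hi => ?_⟩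
    · have e : lst (S (addS σ (enc k L p))) (enc k L p) = lst (S σ) (enc k L p) := by
        apply lst_congr
        intro i hi
        rw [mem_S_addS hy]
        have : i ≠ enc k L p := by omega
        simp [this]
      rw [e, lst_eq_of_le (fun i hi => lt_of_mem_S hi) hy]
      exact h1
    · rw [h2 ℓ hℓ i hi, mem_S_addS hy]
      constructor
      · exact Or.inl
      · rintro (h | h)
        · exact h
        · exfalso
          have h6 := kk_le (enc k L p)
          rw [kk_enc] at h6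
          omega

theorem exists_ext {ρ : List Bool} {B : Set ℕ} (h : S ρ ⊆ B) (hB : B.Infinite) :
    ∃ C ⊆ B, C.Infinite ∧ pre C ρ.length = ρ := by
  refine ⟨S ρ ∪ {y ∈ B | ρ.length ≤ y}, ?_, ?_, ?_⟩
  · rintro y (hy | hy)
    · exact h hy
    · exact hy.1
  · refine Set.Infinite.mono Set.subset_union_right ?_
    intro hfin
    obtain ⟨b', hb'⟩ := exists_bound_of_finite hfin
    obtain ⟨y, hy, hy'⟩ := hB.exists_gt (max b' ρ.length)
    have := hb' y ⟨hy, (le_max_right _ _).trans hy'.le⟩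
    have := le_max_left b' ρ.length
    omega
  · rw [pre_eq_iff]
    intro i hi
    constructor
    · rintro (h | h)
      · exact h
      · exact absurd h.2 (not_le.2 hi)
    · exact Or.inl

/-! ### Requirements -/

/-- `A` is, above `b`, the union of the sets `B` computed from `A` by the second components of the
elements of `l`, and these sets are uniformly introreducible via the first components. -/
def Hyp (A : Set ℕ) (l : List (OCode × OCode)) (b : ℕ) : Prop :=
  (∀ c ∈ l, ∃ B : Set ℕ, c.2.eval (chi A) = chi B ∧ B ⊆ A ∧ B.Infinite ∧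
    ∀ C ⊆ B, C.Infinite → c.1.eval (chi C) = chi B) ∧
  ∀ x ∈ A, b ≤ x → ∃ c ∈ l, 1 ∈ c.2.eval (chi A) x

/-- No legitimate infinite extension of `τ` satisfies the hypothesis. -/
def Forced (l : List (OCode × OCode)) (b : ℕ) (τ : List Bool) : Prop :=
  ∀ A, Leg A → A.Infinite → pre A τ.length = τ → ¬ Hyp A l b

/-- The element `y` is coloured in both strings. -/
def Col (ψ : OCode) (p q : List Bool) (y : ℕ) : Prop :=
  1 ∈ ψ.eval (strO p) y ∧ 1 ∈ ψ.eval (strO q) y

theorem Col.mono {ψ : OCode} {p q p' q' : List Bool} {y : ℕ} (h : Col ψ p q y)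
    (hp : p <+: p') (hq : q <+: q') : Col ψ p' q' y :=
  ⟨ψ.eval_mono (strO_mono hp) _ _ h.1, ψ.eval_mono (strO_mono hq) _ _ h.2⟩

/-- Below `(p, q)` one can always find further elements coloured in both strings. -/
def Dag (ψ : OCode) (p q : List Bool) : Prop :=
  ∀ p' q', p <+: p' → q <+: q' → Leg (S p') → Leg (S q') → ∀ m, ∃ p'' q'',
    p' <+: p'' ∧ q' <+: q'' ∧ Leg (S p'') ∧ Leg (S q'') ∧ ∃ y, m ≤ y ∧ Col ψ p'' q'' y

theorem Dag.mono {ψ : OCode} {p q p' q' : List Bool} (h : Dag ψ p q)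
    (hp : p <+: p') (hq : q <+: q') : Dag ψ p' q' :=
  fun p'' q'' h1 h2 => h p'' q'' (hp.trans h1) (hq.trans h2)

/-- The side condition. -/
def Good (l : List (OCode × OCode)) (p q : List Bool) (c : OCode × OCode) (z : ℕ) : Prop :=
  Leg (S p) ∧ Leg (S q) ∧ c ∈ l ∧ Dag c.2 p q ∧
    ∀ p' q', p <+: p' → q <+: q' → Leg (S p') → Leg (S q') → ∀ ρ,
      (∀ y ∈ S ρ, Col c.2 p' q' y) → ∀ v, v ∉ c.1.eval (strO ρ) z

/-- Extending strings whose extensions are not forced. -/
theorem exists_colour {l : List (OCode × OCode)} {b : ℕ} {τ : List Bool}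
    (h : ¬ Forced l b τ) {y : ℕ} (hy : y ∈ S τ) (hb : b ≤ y) :
    ∃ τ', τ <+: τ' ∧ Leg (S τ') ∧ ∃ c ∈ l, 1 ∈ c.2.eval (strO τ') y := by
  unfold Forced at h
  push Not at h
  obtain ⟨A, hA, -, hpre, hH⟩ := h
  have hyA : y ∈ A := (pre_eq_iff.1 hpre y (lt_of_mem_S hy)).2 hy
  obtain ⟨c, hc, h1⟩ := hH.2 y hyA hb
  obtain ⟨L, hL⟩ := c.2.eval_use h1
  exact ⟨pre A (max L τ.length), prefix_pre hpre (le_max_right _ _), leg_pre hA _, c, hc,
    c.2.eval_pre_mono A (le_max_left _ _) hL⟩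

theorem exists_new {l : List (OCode × OCode)} {b : ℕ} {τ : List Bool}
    (h : ¬ Forced l b τ) {c : OCode × OCode} (hc : c ∈ l) (m : ℕ) :
    ∃ τ', τ <+: τ' ∧ Leg (S τ') ∧ ∃ z, m ≤ z ∧ 1 ∈ c.2.eval (strO τ') z := by
  unfold Forced at h
  push Not at h
  obtain ⟨A, hA, -, hpre, hH⟩ := h
  obtain ⟨B, hB, -, hBinf, -⟩ := hH.1 c hc
  obtain ⟨z, hz, hmz⟩ := hBinf.exists_gt m
  have h1 : 1 ∈ c.2.eval (chi A) z := by rw [hB]; exact one_mem_chi.2 hz
  obtain ⟨L, hL⟩ := c.2.eval_use h1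
  exact ⟨pre A (max L τ.length), prefix_pre hpre (le_max_right _ _), leg_pre hA _, z, hmz.le,
    c.2.eval_pre_mono A (le_max_left _ _) hL⟩

/-- The worlds of the pigeonhole argument. -/
theorem exists_worlds {l : List (OCode × OCode)} {σ : List Bool} (hσ : Leg (S σ))
    (hno : ∀ c ∈ l, ∀ p q, σ <+: p → σ <+: q → Leg (S p) → Leg (S q) → ¬ Dag c.2 p q)
    (T : Finset (Fin (l.length + 1) × Fin (l.length + 1) × Fin l.length)) :
    ∃ w : Fin (l.length + 1) → List Bool, (∀ t, σ <+: w t ∧ Leg (S (w t))) ∧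
      ∃ m, ∀ tr ∈ T, tr.1 ≠ tr.2.1 → ∀ p q, w tr.1 <+: p → w tr.2.1 <+: q → Leg (S p) →
        Leg (S q) → ∀ y, m ≤ y → ¬ Col (l.get tr.2.2).2 p q y := by
  classical
  induction T using Finset.induction_on with
  | empty => exact ⟨fun _ => σ, fun _ => ⟨List.prefix_refl _, hσ⟩, 0, fun tr h => by simp at h⟩
  | insert tr T _ ih =>
    obtain ⟨w, hw, m, hm⟩ := ih
    by_cases hne : tr.1 = tr.2.1
    · refine ⟨w, hw, m, fun tr' h' => ?_⟩
      rcases Finset.mem_insert.1 h' with rfl | h'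
      · intro h; exact absurd hne h
      · exact hm tr' h'
    · have h1 := hno (l.get tr.2.2) (List.get_mem _ _) (w tr.1) (w tr.2.1) (hw _).1 (hw _).1
        (hw _).2 (hw _).2
      unfold Dag at h1
      push Not at h1
      obtain ⟨p', q', hp, hq, hlp, hlq, m', hm'⟩ := h1
      let w' := Function.update (Function.update w tr.1 p') tr.2.1 q'
      have hw'1 : w' tr.1 = p' := by
        simp only [w']
        rw [Function.update_of_ne hne, Function.update_self]
      have hw'2 : w' tr.2.1 = q' := by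
        simp only [w']
        rw [Function.update_self]
      have hw' : ∀ t, w t <+: w' t ∧ Leg (S (w' t)) := by
        intro t
        by_cases h2 : t = tr.2.1
        · rw [h2, hw'2]; exact ⟨hq, hlq⟩
        · by_cases h3 : t = tr.1
          · rw [h3, hw'1]; exact ⟨hp, hlp⟩
          · have : w' t = w t := by
              simp only [w']
              rw [Function.update_of_ne h2, Function.update_of_ne h3]
            rw [this]; exact ⟨List.prefix_refl _, (hw t).2⟩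
      refine ⟨w', fun t => ⟨(hw t).1.trans (hw' t).1, (hw' t).2⟩, max m m', fun tr' h' => ?_⟩
      rcases Finset.mem_insert.1 h' with rfl | h'
      · intro _ p q h4 h5 h6 h7 y hy
        rw [hw'1] at h4
        rw [hw'2] at h5
        exact hm' p q h4 h5 h6 h7 y ((le_max_right _ _).trans hy)
      · intro h3 p q h4 h5 h6 h7 y hy
        exact hm tr' h' h3 p q ((hw' _).1.trans h4) ((hw' _).1.trans h5) h6 h7 y
          ((le_max_left _ _).trans hy)

theorem exists_dag {l : List (OCode × OCode)} {b : ℕ} {σ : List Bool} (hσ : Leg (S σ))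
    (hlen : l.length + 1 ≤ σ.length)
    (hF : ∀ τ, σ <+: τ → Leg (S τ) → ¬ Forced l b τ) :
    ∃ c ∈ l, ∃ p q, σ <+: p ∧ σ <+: q ∧ Leg (S p) ∧ Leg (S q) ∧ Dag c.2 p q := by
  classical
  by_contra hcon
  have hno : ∀ c ∈ l, ∀ p q, σ <+: p → σ <+: q → Leg (S p) → Leg (S q) → ¬ Dag c.2 p q := by
    intro c hc p q h1 h2 h3 h4 h5
    exact hcon ⟨c, hc, p, q, h1, h2, h3, h4, h5⟩
  obtain ⟨w, hw, m, hm⟩ := exists_worlds hσ hno Finset.univ
  let M := max (max m b) (Finset.univ.sup fun t => (w t).length)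
  let L := List.ofFn fun t => lst (S (w t)) (w t).length
  let y := enc (l.length + 1) L M
  have hMy : M ≤ y := le_enc _ _ _
  have hwM : ∀ t, (w t).length ≤ M := fun t =>
    (Finset.le_sup (f := fun t => (w t).length) (Finset.mem_univ t)).trans (le_max_right _ _)
  have hleg : ∀ t, Leg (S (addS (w t) y)) := by
    intro t
    refine leg_addS (hw t).2 (hwM t) ?_ ?_ ?_
    · simp [L]
    · simp only [L, List.mem_ofFn]
      exact ⟨t, rfl⟩
    · intro ℓ hℓ i hi
      simp only [L, List.mem_ofFn] at hℓ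
      obtain ⟨s, rfl⟩ := hℓ
      have hi' : i < σ.length := by omega
      have hs := (hw s).1.length_le
      rw [mem_lst, mem_S_iff_of_prefix (hw s).1 hi', mem_S_iff_of_prefix (hw t).1 hi']
      simp only [and_iff_right_iff_imp]
      intro _
      omega
  have hcol : ∀ t, ∃ v, addS (w t) y <+: v ∧ Leg (S v) ∧
      ∃ i : Fin l.length, 1 ∈ (l.get i).2.eval (strO v) y := by
    intro t
    have h1 : σ <+: addS (w t) y := (hw t).1.trans (prefix_addS _ _)
    have hy : y ∈ S (addS (w t) y) := (mem_S_addS ((hwM t).trans hMy)).2 (Or.inr rfl)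
    have hb : b ≤ y := ((le_max_right _ _).trans (le_max_left _ _)).trans hMy
    obtain ⟨v, hv, hlv, c, hc, h2⟩ := exists_colour (hF _ h1 (hleg t)) hy hb
    obtain ⟨i, hi⟩ := List.get_of_mem hc
    exact ⟨v, hv, hlv, i, by rw [hi]; exact h2⟩
  choose v hv hlv i hi using hcol
  obtain ⟨s, t, hst, he⟩ := Fintype.exists_ne_map_eq_of_card_lt i (by simp)
  refine hm (s, t, i s) (Finset.mem_univ _) hst (v s) (v t) ((prefix_addS _ _).trans (hv s))
    ((prefix_addS _ _).trans (hv t)) (hlv s) (hlv t) y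
    (((le_max_left _ _).trans (le_max_left _ _)).trans hMy) ⟨hi s, ?_⟩
  have := hi t
  rw [← he] at this
  exact this

theorem forced_value {A : Set ℕ} {c : OCode × OCode} {B : Set ℕ}
    (hB : c.2.eval (chi A) = chi B) (hBinf : B.Infinite)
    (hU : ∀ C ⊆ B, C.Infinite → c.1.eval (chi C) = chi B) {p : List Bool}
    (hp : pre A p.length = p) {ρ : List Bool} (hρ : ∀ y ∈ S ρ, 1 ∈ c.2.eval (strO p) y)
    {v z : ℕ} (hv : v ∈ c.1.eval (strO ρ) z) : v ∈ chi B z := by
  have hsub : S ρ ⊆ B := by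
    intro y hy
    rw [← one_mem_chi, ← hB]
    refine c.2.eval_mono (strO_pre A p.length) _ _ ?_
    rw [hp]; exact hρ y hy
  obtain ⟨C, hC, hCinf, hpre⟩ := exists_ext hsub hBinf
  rw [← hU C hC hCinf]
  refine c.1.eval_mono (strO_pre C ρ.length) _ _ ?_
  rw [hpre]; exact hv

/-- Density of the sets deciding the requirements. -/
theorem dense_req (l : List (OCode × OCode)) (b : ℕ) {σ : List Bool} (hσ : Leg (S σ)) :
    ∃ τ, σ <+: τ ∧ Leg (S τ) ∧ (Forced l b τ ∨ ∃ q c z, Good l τ q c z) := by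
  by_contra hcon
  have hF : ∀ τ, σ <+: τ → Leg (S τ) → ¬ Forced l b τ := fun τ h1 h2 h3 =>
    hcon ⟨τ, h1, h2, Or.inl h3⟩
  have hG : ∀ τ, σ <+: τ → Leg (S τ) → ∀ q c z, ¬ Good l τ q c z := fun τ h1 h2 q c z h3 =>
    hcon ⟨τ, h1, h2, Or.inr ⟨q, c, z, h3⟩⟩
  have hσ' : Leg (S (pad σ (l.length + 1))) := by rw [S_pad]; exact hσ
  have hpp := prefix_pad σ (l.length + 1)
  obtain ⟨c, hc, p, q, h1, h2, h3, h4, h5⟩ := exists_dag hσ' (by rw [length_pad]; omega)
    (fun τ h1 h2 => hF τ (hpp.trans h1) h2)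
  have hσp : σ <+: p := hpp.trans h1
  have hσq : σ <+: q := hpp.trans h2
  obtain ⟨p1, hp1, hlp1, z, hz, hzp⟩ := exists_new (hF p hσp h3) hc q.length
  let q1 := pad q (z + 1)
  have hq1 : q <+: q1 := prefix_pad _ _
  have hlq1 : Leg (S q1) := by
    show Leg (S (pad q (z + 1)))
    rw [S_pad]; exact h4
  have hzq : z < q1.length ∧ z ∉ S q1 := by
    refine ⟨?_, ?_⟩
    · show z < (pad q (z + 1)).length
      rw [length_pad]; omega
    · show z ∉ S (pad q (z + 1))
      rw [S_pad]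
      intro h
      have := lt_of_mem_S h
      omega
  have hng := hG p1 (hσp.trans hp1) hlp1 q1 c z
  apply hng
  refine ⟨hlp1, hlq1, hc, h5.mono hp1 hq1, ?_⟩
  intro p' q' hp' hq' hlp' hlq' ρ hρ v hv
  -- the first world
  have hF1 := hF p' ((hσp.trans hp1).trans hp') hlp'
  unfold Forced at hF1
  push Not at hF1
  obtain ⟨A, hA, -, hpre, hH⟩ := hF1
  obtain ⟨B, hB, -, hBinf, hU⟩ := hH.1 c hc
  have hv1 := forced_value hB hBinf hU hpre (fun y hy => (hρ y hy).1) hv
  have hzB : z ∈ B := by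
    rw [← one_mem_chi, ← hB]
    refine c.2.eval_mono (strO_pre A p1.length) _ _ ?_
    rw [pre_of_prefix hpre hp']
    exact hzp
  have hv2 : v = 1 := Part.mem_unique hv1 (one_mem_chi.2 hzB)
  subst hv2
  -- the second world
  have hF2 := hF q' ((hσq.trans hq1).trans hq') hlq'
  unfold Forced at hF2
  push Not at hF2
  obtain ⟨A', hA', -, hpre', hH'⟩ := hF2
  obtain ⟨B', hB', hBA', hBinf', hU'⟩ := hH'.1 c hc
  have hv3 := forced_value hB' hBinf' hU' hpre' (fun y hy => (hρ y hy).2) hv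
  have hzA : z ∈ A' := hBA' (one_mem_chi.1 hv3)
  have h6 := pre_eq_iff.1 (pre_of_prefix hpre' hq') z hzq.1
  exact hzq.2 (h6.1 hzA)

/-- Density of the sets taking care of the side conditions. -/
theorem dense_side (ψ : OCode) (p q : List Bool) (m : ℕ) (hp : Leg (S p)) (hq : Leg (S q))
    (h : Dag ψ p q) {σ : List Bool} (hσ : Leg (S σ)) :
    ∃ τ, σ <+: τ ∧ Leg (S τ) ∧ ((¬ τ <+: p ∧ ¬ p <+: τ) ∨
      ∃ p' q', p <+: p' ∧ p' <+: τ ∧ q <+: q' ∧ Leg (S p') ∧ Leg (S q') ∧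
        ∃ y, m ≤ y ∧ Col ψ p' q' y) := by
  by_cases h0 : ¬ σ <+: p ∧ ¬ p <+: σ
  · exact ⟨σ, List.prefix_refl _, hσ, Or.inl h0⟩
  · have h1 : ∃ τ0, σ <+: τ0 ∧ p <+: τ0 ∧ Leg (S τ0) := by
      by_cases h2 : σ <+: p
      · exact ⟨p, h2, List.prefix_refl _, hp⟩
      · have h3 : p <+: σ := by
          by_contra h3
          exact h0 ⟨h2, h3⟩
        exact ⟨σ, List.prefix_refl _, h3, hσ⟩
    obtain ⟨τ0, h2, h3, h4⟩ := h1
    obtain ⟨p', q', h5, h6, h7, h8, h9⟩ := h τ0 q h3 (List.prefix_refl _) h4 hq m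
    exact ⟨p', h2.trans h5, h7, Or.inr ⟨p', q', h3.trans h5, List.prefix_refl _, h6, h7, h8,
      h9⟩⟩

/-- Every legitimate string has a legitimate extension with a new element. -/
theorem exists_add {σ : List Bool} (hσ : Leg (S σ)) : ∃ τ, σ <+: τ ∧ Leg (S τ) ∧
    ∃ y ∈ S τ, σ.length ≤ y := by
  by_cases h0 : σ.length = 0
  · -- the empty string: use the empty list below `kk = 1`
    have hnil : σ = [] := List.length_eq_zero_iff.1 h0
    subst hnil
    have hE : ∀ i, i ∉ S [] := fun i h => by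
      have := lt_of_mem_S h
      simp at this
    refine ⟨addS [] (enc 1 [lst (S []) 0] 0), prefix_addS _ _, ?_,
      enc 1 [lst (S []) 0] 0, (mem_S_addS (Nat.zero_le _)).2 (Or.inr rfl), Nat.zero_le _⟩
    refine leg_addS hσ (Nat.zero_le _) (by simp) (by simp) ?_
    intro ℓ hℓ i _
    rw [List.mem_singleton] at hℓ
    subst hℓ
    rw [mem_lst]
    simp [hE i]
  · have hy : σ.length ≤ enc 1 [lst (S σ) σ.length] σ.length := le_enc _ _ _
    refine ⟨addS σ (enc 1 [lst (S σ) σ.length] σ.length), prefix_addS _ _, ?_,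
      enc 1 [lst (S σ) σ.length] σ.length, (mem_S_addS hy).2 (Or.inr rfl), hy⟩
    refine leg_addS hσ le_rfl (by simp) (by simp) ?_
    intro ℓ hℓ i hi
    rw [List.mem_singleton] at hℓ
    subst hℓ
    rw [mem_lst]
    simp only [and_iff_right_iff_imp]
    intro _
    omega

/-- Existence of generic legitimate sets. -/
theorem exists_generic {ι : Type*} [Countable ι] (D : ι → List Bool → Prop)
    (hD : ∀ i σ, Leg (S σ) → ∃ τ, σ <+: τ ∧ Leg (S τ) ∧ D i τ) :
    ∃ A : Set ℕ, Leg A ∧ A.Infinite ∧ ∀ i, ∃ τ, pre A τ.length = τ ∧ D i τ := by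
  classical
  obtain ⟨e, he⟩ : ∃ e : ℕ → Option ι, Function.Surjective e :=
    exists_surjective_nat (Option ι)
  have hnil : Leg (S []) := by
    intro y hy
    have := lt_of_mem_S hy
    simp at this
  obtain ⟨f, hf0, hf⟩ := dep_choice (p := fun σ => Leg (S σ))
    (r := fun n σ τ => σ <+: τ ∧ (∃ y ∈ S τ, σ.length ≤ y) ∧ ∀ i, e n = some i → D i τ)
    [] hnil (by
    intro n σ hσ
    obtain ⟨τ, h1, h2, y, h3, h4⟩ := exists_add hσ
    cases hen : e n with
    | none => exact ⟨τ, h2, h1, ⟨y, h3, h4⟩, fun i hi => by simp at hi⟩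
    | some i =>
      obtain ⟨τ', h5, h6, h7⟩ := hD i τ h2
      refine ⟨τ', h6, h1.trans h5, ⟨y, S_mono h5 h3, h4⟩, fun j hj => ?_⟩
      rw [Option.some.injEq] at hj
      subst hj
      exact h7)
  have hmono : ∀ n m, n ≤ m → f n <+: f m := by
    intro n m h
    induction h with
    | refl => exact List.prefix_refl _
    | step _ ih => exact ih.trans (hf _).2.1
  have hlen : ∀ n, n ≤ (f n).length := by
    intro n
    induction n with
    | zero => exact Nat.zero_le _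
    | succ n ih =>
      obtain ⟨y, hy, hy'⟩ := (hf n).2.2.1
      have := lt_of_mem_S hy
      omega
  let A : Set ℕ := {x | ∃ n, x ∈ S (f n)}
  have hA : ∀ n, ∀ i < (f n).length, (i ∈ A ↔ i ∈ S (f n)) := by
    intro n i hi
    constructor
    · rintro ⟨m, hm⟩
      rcases le_total m n with h | h
      · exact S_mono (hmono _ _ h) hm
      · exact (mem_S_iff_of_prefix (hmono _ _ h) hi).1 hm
    · exact fun h => ⟨n, h⟩
  refine ⟨A, ?_, ?_, ?_⟩
  · apply Leg.of_local
    rintro y ⟨n, hn⟩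
    exact ⟨S (f n), (hf n).1, hn, fun i hi => hA n i (hi.trans (lt_of_mem_S hn))⟩
  · rw [Set.infinite_iff_exists_gt]
    intro n
    obtain ⟨y, hy, hy'⟩ := (hf (n + 1)).2.2.1
    exact ⟨y, ⟨_, hy⟩, by have := hlen (n + 1); omega⟩
  · intro i
    obtain ⟨n, hn⟩ := he (some i)
    exact ⟨f (n + 1), pre_eq_iff.2 (hA (n + 1)), (hf n).2.2.2 i hn⟩

/-- The final contradiction for a generic set. -/
theorem generic_not_hyp {A : Set ℕ} (hA : Leg A) (hAinf : A.Infinite)
    (h1 : ∀ (l : List (OCode × OCode)) (b : ℕ), ∃ τ, pre A τ.length = τ ∧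
      (Forced l b τ ∨ ∃ q c z, Good l τ q c z))
    (h2 : ∀ (ψ : OCode) (p q : List Bool) (m : ℕ), Leg (S p) → Leg (S q) → Dag ψ p q →
      pre A p.length = p → ∃ p' q', p <+: p' ∧ pre A p'.length = p' ∧ q <+: q' ∧ Leg (S p') ∧
        Leg (S q') ∧ ∃ y, m ≤ y ∧ Col ψ p' q' y)
    (l : List (OCode × OCode)) (b : ℕ) : ¬ Hyp A l b := by
  intro hH
  obtain ⟨p0, hp0, h3⟩ := h1 l b
  rcases h3 with h3 | ⟨q0, c, z, hG⟩
  · exact h3 A hA hAinf hp0 hH
  obtain ⟨hlp, hlq, hc, hdag, hgood⟩ := hG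
  obtain ⟨B, hB, -, -, hU⟩ := hH.1 c hc
  obtain ⟨f, hf0, hf⟩ := dep_choice
    (p := fun s : List Bool × List Bool × ℕ => Leg (S s.1) ∧ Leg (S s.2.1) ∧ p0 <+: s.1 ∧
      q0 <+: s.2.1 ∧ pre A s.1.length = s.1)
    (r := fun _ s s' => s.1 <+: s'.1 ∧ s.2.1 <+: s'.2.1 ∧ s.2.2 < s'.2.2 ∧
      Col c.2 s'.1 s'.2.1 s'.2.2) (p0, q0, 0)
    ⟨hlp, hlq, List.prefix_refl _, List.prefix_refl _, hp0⟩ (by
    rintro _ ⟨p, q, y⟩ ⟨h4, h5, h6, h7, h8⟩
    obtain ⟨p', q', g1, g2, g3, g4, g5, y', g6, g7⟩ := h2 c.2 p q (y + 1) h4 h5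
      (hdag.mono h6 h7) h8
    exact ⟨(p', q', y'), ⟨g4, g5, h6.trans g1, h7.trans g3, g2⟩, g1, g3, g6, g7⟩)
  have hmono : ∀ n m, n ≤ m → (f n).1 <+: (f m).1 ∧ (f n).2.1 <+: (f m).2.1 := by
    intro n m h
    induction h with
    | refl => exact ⟨List.prefix_refl _, List.prefix_refl _⟩
    | step _ ih => exact ⟨ih.1.trans (hf _).2.1, ih.2.trans (hf _).2.2.1⟩
  have hy : ∀ n, n ≤ (f n).2.2 := by
    intro n
    induction n with
    | zero => exact Nat.zero_le _
    | succ n ih =>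
      have := (hf n).2.2.2.1
      omega
  let C : Set ℕ := {y | ∃ n, y = (f (n + 1)).2.2}
  have hCinf : C.Infinite := by
    rw [Set.infinite_iff_exists_gt]
    intro n
    exact ⟨(f (n + 1)).2.2, ⟨n, rfl⟩, by have := hy (n + 1); omega⟩
  have hCB : C ⊆ B := by
    rintro y ⟨n, rfl⟩
    have h4 := (hf n).2.2.2.2.1
    rw [← one_mem_chi, ← hB]
    refine c.2.eval_mono (strO_pre A (f (n + 1)).1.length) _ _ ?_
    rw [(hf (n + 1)).1.2.2.2.2]
    exact h4
  have h5 := hU C hCB hCinf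
  classical
  have h6 : (if z ∈ B then 1 else 0) ∈ chi B z := Part.mem_some _
  rw [← h5] at h6
  obtain ⟨L, hL⟩ := c.1.eval_use h6
  have hi := (hf (L + 1)).1
  refine hgood (f (L + 1)).1 (f (L + 1)).2.1 hi.2.2.1 hi.2.2.2.1 hi.1 hi.2.1 (pre C L) ?_ _ hL
  intro y hyS
  rw [mem_S_pre] at hyS
  obtain ⟨hyL, n, rfl⟩ := hyS
  have h7 := hy (n + 1)
  have h8 := hmono (n + 1) (L + 1) (by omega)
  exact (hf n).2.2.2.2.mono h8.1 h8.2

/-- There is an infinite legitimate set satisfying all requirements. -/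
theorem exists_main : ∃ A : Set ℕ, Leg A ∧ A.Infinite ∧ ∀ l b, ¬ Hyp A l b := by
  classical
  let D : (List (OCode × OCode) × ℕ) ⊕ (OCode × List Bool × List Bool × ℕ) →
      List Bool → Prop := fun i τ =>
    match i with
    | Sum.inl r => Forced r.1 r.2 τ ∨ ∃ q c z, Good r.1 τ q c z
    | Sum.inr r => Leg (S r.2.1) → Leg (S r.2.2.1) → Dag r.1 r.2.1 r.2.2.1 →
        ((¬ τ <+: r.2.1 ∧ ¬ r.2.1 <+: τ) ∨
        ∃ p' q', r.2.1 <+: p' ∧ p' <+: τ ∧ r.2.2.1 <+: q' ∧ Leg (S p') ∧ Leg (S q') ∧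
        ∃ y, r.2.2.2 ≤ y ∧ Col r.1 p' q' y)
  obtain ⟨A, h1, h2, h3⟩ := exists_generic D (by
    rintro (⟨l, b⟩ | ⟨ψ, p, q, m⟩) σ hσ
    · exact dense_req l b hσ
    · by_cases h : Leg (S p) ∧ Leg (S q) ∧ Dag ψ p q
      · obtain ⟨τ, g1, g2, g3⟩ := dense_side ψ p q m h.1 h.2.1 h.2.2 hσ
        exact ⟨τ, g1, g2, fun _ _ _ => g3⟩
      · exact ⟨σ, List.prefix_refl _, hσ, fun g1 g2 g3 => absurd ⟨g1, g2, g3⟩ h⟩)
  refine ⟨A, h1, h2, fun l b => generic_not_hyp h1 h2 (fun l b => ?_) ?_ l b⟩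
  · exact h3 (Sum.inl (l, b))
  · intro ψ p q m hp hq hd hpre
    obtain ⟨τ, hτ, h4⟩ := h3 (Sum.inr (ψ, p, q, m))
    rcases h4 hp hq hd with h5 | ⟨p', q', g1, g2, g3, g4, g5, g6⟩
    · exfalso
      rcases le_total τ.length p.length with h | h
      · apply h5.1
        have := prefix_pre hτ h
        rwa [hpre] at this
      · apply h5.2
        have := prefix_pre hpre h
        rwa [hτ] at this
    · exact ⟨p', q', g1, pre_of_prefix hτ g2, g3, g4, g5, g6⟩

end Pool.Agent.Intro
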