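import Pool.Agent.Lib.MP_4a6649_lc.Dju

/-!
# Legitimate sets are introreducible

A number `y` codes a number `kk y` and a list `LL y` of finite sets of numbers. A set `A` is
legitimate if for every `y ∈ A` the list `LL y` has at most `kk y` entries, contains `A ∩ [0, y)`,
and all its entries agree with `A` below `kk y`.
-/

namespace Pool.Agent.Intro

open Pool.Agent.SJT (pre length_pre getElem?_pre pre_zero pre_succ take_pre pre_le pre_congr
  pre_congr_iff)
open Encodable

/-- Decoding of the elements. -/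
def dec (y : ℕ) : ℕ × List (List ℕ) × ℕ :=
  (decode (α := ℕ × List (List ℕ) × ℕ) y).getD (0, [], 0)

/-- The number coded by `y`. -/
def kk (y : ℕ) : ℕ := (dec y).1

/-- The list coded by `y`. -/
def LL (y : ℕ) : List (List ℕ) := (dec y).2.1

/-- Coding. -/
def enc (k : ℕ) (L : List (List ℕ)) (p : ℕ) : ℕ := encode (k, L, p)

theorem dec_enc (k : ℕ) (L : List (List ℕ)) (p : ℕ) : dec (enc k L p) = (k, L, p) := by
  unfold dec enc
  rw [encodek]; rfl

theorem kk_enc (k : ℕ) (L : List (List ℕ)) (p : ℕ) : kk (enc k L p) = k := by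
  unfold kk; rw [dec_enc]

theorem LL_enc (k : ℕ) (L : List (List ℕ)) (p : ℕ) : LL (enc k L p) = L := by
  unfold LL; rw [dec_enc]

theorem le_enc (k : ℕ) (L : List (List ℕ)) (p : ℕ) : p ≤ enc k L p := by
  have h : enc k L p = Nat.pair k (Nat.pair (encode L) p) := rfl
  rw [h]
  exact (Nat.right_le_pair _ _).trans (Nat.right_le_pair _ _)

theorem kk_le (y : ℕ) : kk y ≤ y := by
  unfold kk dec
  cases h : decode (α := ℕ × List (List ℕ) × ℕ) y with
  | none => simp
  | some q =>
    rw [Encodable.decode_prod_val] at h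
    simp only [Option.bind_eq_some_iff, Option.map_eq_some_iff] at h
    obtain ⟨a, ha, b, hb, rfl⟩ := h
    simp only [Encodable.decode_nat, Option.some.injEq] at ha
    simp only [Option.getD_some]
    rw [← ha]
    exact Nat.unpair_left_le y

theorem primrec_dec : Primrec dec :=
  Primrec.option_getD.comp Primrec.decode (Primrec.const _)

theorem primrec_LL : Primrec LL := Primrec.fst.comp (Primrec.snd.comp primrec_dec)

open scoped Classical in
/-- The list of the elements of `A` below `y`. -/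
noncomputable def lst (A : Set ℕ) (y : ℕ) : List ℕ := (List.range y).filter fun i => decide (i ∈ A)

theorem mem_lst {A : Set ℕ} {y i : ℕ} : i ∈ lst A y ↔ i < y ∧ i ∈ A := by
  simp [lst]

theorem lst_congr {A A' : Set ℕ} {y : ℕ} (h : ∀ i < y, (i ∈ A ↔ i ∈ A')) :
    lst A y = lst A' y := by
  unfold lst
  apply List.filter_congr
  intro i hi
  rw [List.mem_range] at hi
  simp [h i hi]

theorem lst_eq_of_le {A : Set ℕ} {m y : ℕ} (hA : ∀ i ∈ A, i < m) (h : m ≤ y) :
    lst A y = lst A m := by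
  induction h with
  | refl => rfl
  | @step n hn ih =>
    rw [← ih]
    unfold lst
    rw [List.range_succ, List.filter_append]
    have : n ∉ A := fun h => absurd (hA n h) (not_lt.2 hn)
    simp [this]

/-- Legitimate sets. -/
def Leg (A : Set ℕ) : Prop :=
  ∀ y ∈ A, (LL y).length ≤ kk y ∧ lst A y ∈ LL y ∧
    ∀ ℓ ∈ LL y, ∀ i < kk y, (i ∈ ℓ ↔ i ∈ A)

theorem Leg.of_local {A' : Set ℕ}
    (h : ∀ y ∈ A', ∃ A, Leg A ∧ y ∈ A ∧ ∀ i < y, (i ∈ A' ↔ i ∈ A)) : Leg A' := by
  intro y hy
  obtain ⟨A, hA, hyA, hi⟩ := h y hy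
  obtain ⟨h1, h2, h3⟩ := hA y hyA
  refine ⟨h1, ?_, fun ℓ hℓ i hik => ?_⟩
  · rw [lst_congr hi]; exact h2
  · rw [h3 ℓ hℓ i hik]
    exact (hi i (hik.trans_le (kk_le y))).symm

/-- The combinatorial core of the introreducibility of legitimate sets. -/
theorem Leg.core {A : Set ℕ} (h : Leg A) {C : Set ℕ} (hCA : C ⊆ A) (hC : C.Infinite) :
    ∃ x0, ∀ x, ∃ y ∈ C, x < y ∧ x0 ≤ y ∧
      ∀ ℓ ∈ LL y, (∀ i < x0, (i ∈ ℓ ↔ i ∈ A)) → (x ∈ ℓ ↔ x ∈ A) := by
  classical
  by_cases hU : ∀ K, ∃ y ∈ C, K < kk y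
  · refine ⟨0, fun x => ?_⟩
    obtain ⟨y, hy, hk⟩ := hU x
    exact ⟨y, hy, hk.trans_le (kk_le y), Nat.zero_le _, fun ℓ hℓ _ =>
      (h y (hCA hy)).2.2 ℓ hℓ x hk⟩
  · push Not at hU
    obtain ⟨K, hK⟩ := hU
    let ag : ℕ → List ℕ → Bool := fun x0 ℓ => decide (∀ i < x0, (i ∈ ℓ ↔ i ∈ A))
    let Pn : ℕ → Prop := fun N => ∃ x0 y0, ∀ y ∈ C, y0 ≤ y → ((LL y).filter (ag x0)).length ≤ N
    have hPK : ∃ N, Pn N := ⟨K, 0, 0, fun y hy _ =>
      ((List.length_filter_le _ _).trans (h y (hCA hy)).1).trans (hK y hy)⟩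
    obtain ⟨x0, y0, hx0⟩ := Nat.find_spec hPK
    refine ⟨x0, fun x => ?_⟩
    have hex : ∃ y ∈ C, max (max y0 x0) (x + 1) ≤ y ∧
        Nat.find hPK ≤ ((LL y).filter (ag (max x0 (x + 1)))).length := by
      by_contra hcon
      push Not at hcon
      obtain ⟨y, hy, hy'⟩ := hC.exists_gt (max (max y0 x0) (x + 1))
      have h1 := hcon y hy hy'.le
      have h2 : Nat.find hPK ≠ 0 := by omega
      obtain ⟨M, hM⟩ := Nat.exists_eq_succ_of_ne_zero h2
      have h3 : Pn M := ⟨max x0 (x + 1), max (max y0 x0) (x + 1), fun y hy hy' => by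
        have := hcon y hy hy'
        omega⟩
      exact Nat.find_min hPK (by omega) h3
    obtain ⟨y, hy, hyle, hcnt⟩ := hex
    have e1 : max (max y0 x0) (x + 1) ≤ y := hyle
    refine ⟨y, hy, by omega, by omega, fun ℓ hℓ hag => ?_⟩
    have h1 := hx0 y hy (by omega)
    have h2 : ((LL y).filter (ag (max x0 (x + 1)))) =
        (((LL y).filter (ag x0)).filter (ag (max x0 (x + 1)))) := by
      rw [List.filter_filter]
      apply List.filter_congr
      intro l _
      have : ag (max x0 (x + 1)) l = true → ag x0 l = true := by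
        intro h
        simp only [ag, decide_eq_true_eq] at h ⊢
        exact fun i hi => h i (by omega)
      cases h3 : ag (max x0 (x + 1)) l with
      | true => simp [this h3]
      | false => simp
    have h3 : (((LL y).filter (ag x0)).filter (ag (max x0 (x + 1)))).length =
        ((LL y).filter (ag x0)).length := by
      apply le_antisymm (List.length_filter_le _ _)
      rw [← h2]
      exact h1.trans hcnt
    rw [List.length_filter_eq_length_iff] at h3
    have h4 := h3 ℓ (by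
      rw [List.mem_filter]
      refine ⟨hℓ, ?_⟩
      simp only [ag, decide_eq_true_eq]
      exact hag)
    simp only [ag, decide_eq_true_eq] at h4
    exact h4 x (by omega)

/-! ### The algorithm -/

/-- Membership in a list. -/
def memB (i : ℕ) (ℓ : List ℕ) : Bool := ℓ.any fun j => decide (j = i)

theorem memB_iff {i : ℕ} {ℓ : List ℕ} : memB i ℓ = true ↔ i ∈ ℓ := by
  simp [memB]

theorem primrec_memB : Primrec fun q : ℕ × List ℕ => memB q.1 q.2 :=
  SJT.primrec_any (f := fun q : ℕ × List ℕ => q.2)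
    (p := fun (q : ℕ × List ℕ) (j : ℕ) => decide (j = q.1)) Primrec.snd
    ((Primrec.eq.decide).comp Primrec.snd (Primrec.fst.comp Primrec.fst))

/-- The list `ℓ` agrees with `a0` below `x0`. -/
def votB (x0 : ℕ) (a0 : List ℕ) (ℓ : List ℕ) : Bool :=
  (List.range x0).all fun i => decide (memB i ℓ = memB i a0)

theorem votB_iff {x0 : ℕ} {A : Set ℕ} {ℓ : List ℕ} :
    votB x0 (lst A x0) ℓ = true ↔ ∀ i < x0, (i ∈ ℓ ↔ i ∈ A) := by
  unfold votB
  rw [List.all_eq_true]
  have e : ∀ i < x0, (memB i ℓ = memB i (lst A x0) ↔ (i ∈ ℓ ↔ i ∈ A)) := by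
    intro i hi
    rw [Bool.eq_iff_iff, memB_iff, memB_iff, mem_lst]
    simp [hi]
  constructor
  · intro h i hi
    have := h i (List.mem_range.2 hi)
    rw [decide_eq_true_eq] at this
    exact (e i hi).1 this
  · intro h i hi
    rw [List.mem_range] at hi
    rw [decide_eq_true_eq]
    exact (e i hi).2 (h i hi)

theorem primrec_votB (x0 : ℕ) (a0 : List ℕ) : Primrec (votB x0 a0) := by
  refine SJT.primrec_all (f := fun _ : List ℕ => List.range x0)
    (p := fun (ℓ : List ℕ) (i : ℕ) => decide (memB i ℓ = memB i a0)) (Primrec.const _) ?_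
  refine (Primrec.eq.decide).comp ?_ ?_
  · exact Primrec.comp (f := fun q : ℕ × List ℕ => memB q.1 q.2)
      (g := fun q : List ℕ × ℕ => (q.2, q.1)) primrec_memB (Primrec.pair Primrec.snd Primrec.fst)
  · exact Primrec.comp (f := fun q : ℕ × List ℕ => memB q.1 q.2)
      (g := fun q : List ℕ × ℕ => (q.2, a0)) primrec_memB
      (Primrec.pair Primrec.snd (Primrec.const _))

/-- The test of the algorithm at `y`. -/
def tstB (x0 : ℕ) (a0 : List ℕ) (b : Bool) (x y : ℕ) : Bool :=
  decide (x < y) && (decide (x0 ≤ y) && (LL y).all fun ℓ =>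
    !(votB x0 a0 ℓ) || decide (memB x ℓ = b))

theorem primrec_tstB (x0 : ℕ) (a0 : List ℕ) (b : Bool) :
    Primrec fun q : ℕ × ℕ => tstB x0 a0 b q.1 q.2 := by
  refine Primrec.and.comp ((Primrec.nat_lt.decide).comp Primrec.fst Primrec.snd)
    (Primrec.and.comp ((Primrec.nat_le.decide).comp (Primrec.const x0) Primrec.snd) ?_)
  refine SJT.primrec_all (f := fun q : ℕ × ℕ => LL q.2)
    (p := fun (q : ℕ × ℕ) (ℓ : List ℕ) => !(votB x0 a0 ℓ) || decide (memB q.1 ℓ = b))
    (primrec_LL.comp Primrec.snd) ?_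
  refine Primrec.or.comp (Primrec.not.comp ((primrec_votB x0 a0).comp Primrec.snd))
    ((Primrec.eq.decide).comp ?_ (Primrec.const b))
  exact Primrec.comp (f := fun q : ℕ × List ℕ => memB q.1 q.2)
      (g := fun q : (ℕ × ℕ) × List ℕ => (q.1.1, q.2)) primrec_memB
      (Primrec.pair (Primrec.fst.comp Primrec.fst) Primrec.snd)

/-- The test of the algorithm on a string. -/
def srchB (x0 : ℕ) (a0 : List ℕ) (b : Bool) (x : ℕ) (σ : List Bool) : Bool :=
  (List.range σ.length).any fun y => decide (σ[y]? = some true) && tstB x0 a0 b x y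

theorem primrec_srchB (x0 : ℕ) (a0 : List ℕ) (b : Bool) :
    Primrec fun q : ℕ × List Bool => srchB x0 a0 b q.1 q.2 := by
  refine SJT.primrec_any (f := fun q : ℕ × List Bool => List.range q.2.length)
    (p := fun (q : ℕ × List Bool) (y : ℕ) =>
      decide (q.2[y]? = some true) && tstB x0 a0 b q.1 y)
    (Primrec.list_range.comp (Primrec.list_length.comp Primrec.snd)) ?_
  refine Primrec.and.comp ((Primrec.eq.decide).comp (Primrec.list_getElem?.comp
    (Primrec.snd.comp Primrec.fst) Primrec.snd) (Primrec.const (some true))) ?_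
  exact Primrec.comp (f := fun q : ℕ × ℕ => tstB x0 a0 b q.1 q.2)
      (g := fun q : (ℕ × List Bool) × ℕ => (q.1.1, q.2)) (primrec_tstB x0 a0 b)
      (Primrec.pair (Primrec.fst.comp Primrec.fst) Primrec.snd)

theorem srchB_iff {x0 : ℕ} {a0 : List ℕ} {b : Bool} {x l : ℕ} {C : Set ℕ} :
    srchB x0 a0 b x (pre C l) = true ↔ ∃ y ∈ C, y < l ∧ tstB x0 a0 b x y = true := by
  unfold srchB
  rw [List.any_eq_true, length_pre]
  constructor
  · rintro ⟨y, hy, h⟩
    rw [Bool.and_eq_true, decide_eq_true_eq, getElem?_pre] at h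
    exact ⟨y, h.1.2.1 rfl, h.1.1, h.2⟩
  · rintro ⟨y, hy, hyl, h⟩
    refine ⟨y, List.mem_range.2 hyl, ?_⟩
    rw [Bool.and_eq_true, decide_eq_true_eq, getElem?_pre]
    exact ⟨⟨hyl, by simp [hy]⟩, h⟩

theorem Leg.tstB_sound {A : Set ℕ} (h : Leg A) {x0 x y : ℕ} {b : Bool} (hy : y ∈ A)
    (ht : tstB x0 (lst A x0) b x y = true) : (b = true ↔ x ∈ A) := by
  unfold tstB at ht
  rw [Bool.and_eq_true, Bool.and_eq_true, decide_eq_true_eq, decide_eq_true_eq,
    List.all_eq_true] at ht
  obtain ⟨hxy, hx0, hall⟩ := ht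
  have h1 := hall _ (h y hy).2.1
  have h2 : votB x0 (lst A x0) (lst A y) = true := by
    rw [votB_iff]
    intro i hi
    rw [mem_lst]
    simp [hi.trans_le hx0]
  rw [h2] at h1
  simp only [Bool.not_true, Bool.false_or, decide_eq_true_eq] at h1
  rw [← h1, memB_iff, mem_lst]
  simp [hxy]

theorem Leg.tstB_complete {A : Set ℕ} {x0 x y : ℕ} {b : Bool}
    (hxy : x < y) (hx0 : x0 ≤ y) (hb : b = true ↔ x ∈ A)
    (hall : ∀ ℓ ∈ LL y, (∀ i < x0, (i ∈ ℓ ↔ i ∈ A)) → (x ∈ ℓ ↔ x ∈ A)) :
    tstB x0 (lst A x0) b x y = true := by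
  unfold tstB
  rw [Bool.and_eq_true, Bool.and_eq_true, decide_eq_true_eq, decide_eq_true_eq,
    List.all_eq_true]
  refine ⟨hxy, hx0, fun ℓ hℓ => ?_⟩
  cases hv : votB x0 (lst A x0) ℓ with
  | false => simp
  | true =>
    rw [votB_iff] at hv
    have := hall ℓ hℓ hv
    simp only [Bool.not_true, Bool.false_or, decide_eq_true_eq]
    rw [Bool.eq_iff_iff, memB_iff, this, hb]

theorem Leg.introreducible {A : Set ℕ} (hA : A.Infinite) (h : Leg A) : Introreducible A := by
  classical
  refine ⟨hA, fun C hCA hC => ?_⟩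
  rw [RecursiveIn.iff_nat]
  obtain ⟨x0, hx0⟩ := h.core hCA hC
  let a0 := lst A x0
  let G : ℕ → List Bool → Option ℕ := fun x σ =>
    bif srchB x0 a0 true x σ then some 1 else bif srchB x0 a0 false x σ then some 0 else none
  have hG : Computable₂ G := by
    have h : Primrec fun q : ℕ × List Bool => G q.1 q.2 :=
      Primrec.cond (primrec_srchB x0 a0 true) (Primrec.const (some 1))
        (Primrec.cond (primrec_srchB x0 a0 false) (Primrec.const (some 0)) (Primrec.const none))
    exact h.to_comp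
  have hsound : ∀ x l b, srchB x0 a0 b x (pre C l) = true → (b = true ↔ x ∈ A) := by
    intro x l b hs
    rw [srchB_iff] at hs
    obtain ⟨y, hy, -, ht⟩ := hs
    exact h.tstB_sound (hCA hy) ht
  refine (SJT.natRec_search hG C).of_eq fun x => ?_
  have hval : ∀ l v, G x (pre C l) = some v → v ∈ chi A x := by
    intro l v hv
    simp only [G] at hv
    rw [mem_chi]
    cases h1 : srchB x0 a0 true x (pre C l) with
    | true =>
      rw [h1] at hv
      simp only [cond_true, Option.some.injEq] at hv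
      exact Or.inl ⟨(hsound _ _ _ h1).1 rfl, hv.symm⟩
    | false =>
      rw [h1] at hv
      cases h0 : srchB x0 a0 false x (pre C l) with
      | true =>
        rw [h0] at hv
        simp only [cond_true, cond_false, Option.some.injEq] at hv
        refine Or.inr ⟨fun hx => ?_, hv.symm⟩
        have := (hsound _ _ _ h0).2 hx
        cases this
      | false => rw [h0] at hv; simp at hv
  have hdom : (Nat.rfindOpt fun l => G x (pre C l)).Dom := by
    rw [Nat.rfindOpt_dom]
    obtain ⟨y, hy, hxy, hx0y, hall⟩ := hx0 x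
    have h1 : srchB x0 a0 (decide (x ∈ A)) x (pre C (y + 1)) = true := by
      rw [srchB_iff]
      exact ⟨y, hy, Nat.lt_succ_self y, Leg.tstB_complete hxy hx0y (by simp) hall⟩
    refine ⟨y + 1, ?_⟩
    by_cases hx : x ∈ A
    · simp only [hx, decide_true] at h1
      exact ⟨1, by simp [G, h1]⟩
    · simp only [hx, decide_false] at h1
      cases h2 : srchB x0 a0 true x (pre C (y + 1)) with
      | true => exact ⟨1, by simp [G, h2]⟩
      | false => exact ⟨0, by simp [G, h1, h2]⟩
  obtain ⟨v, hv⟩ := Part.dom_iff_mem.1 hdom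
  obtain ⟨l, hl⟩ := Nat.rfindOpt_spec hv
  rw [Part.eq_some_iff.2 hv]
  exact (Part.eq_some_iff.2 (hval l v hl)).symm

end Pool.Agent.Intro
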