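import Pool.Agent.Lib.MP_4a6649_lc.Forcing

/-!
# The main theorem
-/

namespace Pool.Agent.Intro

theorem TLe.diff_finset {ι : Type*} {A : Set ℕ} {B : ι → Set ℕ} (I : Finset ι)
    (h : ∀ i ∈ I, TLe (B i) A) : TLe {x ∈ A | ∀ i ∈ I, x ∉ B i} A := by
  classical
  induction I using Finset.induction_on with
  | empty =>
    have : {x ∈ A | ∀ i ∈ (∅ : Finset ι), x ∉ B i} = A := by ext; simp
    rw [this]; exact TLe.refl A
  | insert i I _ ih =>
    have : {x ∈ A | ∀ j ∈ insert i I, x ∉ B j} = {x ∈ A | ∀ j ∈ I, x ∉ B j} \ B i := by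
      ext x
      constructor
      · rintro ⟨h1, h2⟩
        exact ⟨⟨h1, fun j hj => h2 j (Finset.mem_insert_of_mem hj)⟩,
          h2 i (Finset.mem_insert_self _ _)⟩
      · rintro ⟨⟨h1, h2⟩, h3⟩
        refine ⟨h1, fun j hj => ?_⟩
        rcases Finset.mem_insert.1 hj with rfl | hj
        · exact h3
        · exact h2 j hj
    rw [this]
    exact TLe.diff (ih fun j hj => h j (Finset.mem_insert_of_mem hj))
      (h i (Finset.mem_insert_self _ _))

theorem exists_hyp {A : Set ℕ} {n : ℕ} {B : Fin (n + 1) → Set ℕ}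
    (hB : ∀ i, UniformlyIntroreducible (B i)) (hA : A = ⋃ i, B i) :
    ∃ l b, Hyp A l b := by
  classical
  choose hinf Φ hΦ using hB
  let I : Finset (Fin (n + 1)) := Finset.univ.filter fun i => TLe (B i) A
  let J : Finset (Fin (n + 1)) := Finset.univ.filter fun i => ¬ TLe (B i) A
  have hI : ∀ i ∈ I, TLe (B i) A := fun i hi => (Finset.mem_filter.1 hi).2
  have hX : {x ∈ A | ∀ i ∈ I, x ∉ B i}.Finite := by
    by_contra hX
    refine dju (fun i : Fin (n + 1) => i.val) Fin.val_injective (Φ := Φ) (B := B) J.card J rfl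
      (fun j _ => hinf j) (fun j _ => hΦ j) A {x ∈ A | ∀ i ∈ I, x ∉ B i}
      (TLe.diff_finset I hI) hX ⟨0, fun x hx _ => ?_⟩ (fun j hj => (Finset.mem_filter.1 hj).2)
    have hxA := hx.1
    rw [hA, Set.mem_iUnion] at hxA
    obtain ⟨i, hi⟩ := hxA
    refine ⟨i, Finset.mem_filter.2 ⟨Finset.mem_univ _, fun h => ?_⟩, hi⟩
    exact hx.2 i (Finset.mem_filter.2 ⟨Finset.mem_univ _, h⟩) hi
  obtain ⟨b, hb⟩ := exists_bound_of_finite hX
  have hψ : ∀ i : Fin (n + 1), ∃ ψ : OCode, i ∈ I → ψ.eval (chi A) = chi (B i) := by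
    intro i
    by_cases h : i ∈ I
    · obtain ⟨c, hc⟩ := exists_ocode (hI i h)
      exact ⟨c, fun _ => hc⟩
    · exact ⟨OCode.zero, fun h' => absurd h' h⟩
  choose Ψ hΨ using hψ
  refine ⟨I.toList.map fun i => (Φ i, Ψ i), b, ?_, ?_⟩
  · intro c hc
    rw [List.mem_map] at hc
    obtain ⟨i, hi, rfl⟩ := hc
    rw [Finset.mem_toList] at hi
    refine ⟨B i, hΨ i hi, ?_, hinf i, hΦ i⟩
    rw [hA]
    exact Set.subset_iUnion B i
  · intro x hx hbx
    by_contra hcon
    push Not at hcon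
    have h1 : x ∈ {x ∈ A | ∀ i ∈ I, x ∉ B i} := by
      refine ⟨hx, fun i hi hxi => ?_⟩
      refine hcon (Φ i, Ψ i) (List.mem_map.2 ⟨i, Finset.mem_toList.2 hi, rfl⟩) ?_
      rw [hΨ i hi]
      exact one_mem_chi.2 hxi
    have := hb x h1
    omega

/-- There is an introreducible set that is not a finite union of uniformly introreducible
sets. -/
theorem main : ∃ A : Set ℕ, Introreducible A ∧
    ∀ (n : ℕ) (B : Fin (n + 1) → Set ℕ), (∀ i, UniformlyIntroreducible (B i)) →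
      A ≠ ⋃ i, B i := by
  obtain ⟨A, h1, h2, h3⟩ := exists_main
  refine ⟨A, h1.introreducible h2, fun n B hB hA => ?_⟩
  obtain ⟨l, b, h⟩ := exists_hyp hB hA
  exact h3 l b h

end Pool.Agent.Intro
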